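import Mathlib

/-!
# Product distributions: the hybrid argument, and a concavity bound
-/

set_option autoImplicit false

namespace Pool.Agent.K9h49.MI

open Finset

variable {Z : Type} [Fintype Z]

theorem sum_prod_one : ∀ {N : ℕ} (P : Fin N → Z → ℝ), (∀ j, ∑ z, P j z = 1) →
    ∑ w : Fin N → Z, ∏ j, P j (w j) = 1 := by
  classical
  intro N P hP
  have h := Finset.prod_univ_sum (fun _ : Fin N => (univ : Finset Z)) P
  rw [Fintype.piFinset_univ] at h
  rw [← h]
  exact prod_eq_one fun j _ => hP j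

/-- The hybrid argument. -/
theorem hybrid : ∀ {N : ℕ} (P Q : Fin N → Z → ℝ), (∀ j z, 0 ≤ P j z) → (∀ j z, 0 ≤ Q j z) →
    (∀ j, ∑ z, P j z = 1) → (∀ j, ∑ z, Q j z = 1) →
    ∑ w : Fin N → Z, |∏ j, P j (w j) - ∏ j, Q j (w j)| ≤ ∑ j, ∑ z, |P j z - Q j z| := by
  intro N
  induction N with
  | zero => intro P Q _ _ _ _; simp
  | succ N ih =>
    intro P Q hP hQ hP1 hQ1
    have h1 := ih (fun j => P j.succ) (fun j => Q j.succ) (fun j => hP j.succ)
      (fun j => hQ j.succ) (fun j => hP1 j.succ) (fun j => hQ1 j.succ)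
    have hs := sum_prod_one (fun j => P j.succ) (fun j => hP1 j.succ)
    rw [← Equiv.sum_comp (Fin.consEquiv (fun _ : Fin (N + 1) => Z)), Fintype.sum_prod_type]
    have e1 : ∀ (z : Z) (w : Fin N → Z) (F : Fin (N + 1) → Z → ℝ),
        ∏ j, F j ((Fin.consEquiv (fun _ : Fin (N + 1) => Z)) (z, w) j) =
          F 0 z * ∏ j : Fin N, F j.succ (w j) := by
      intro z w F
      rw [Fin.prod_univ_succ]
      simp [Fin.consEquiv]
    simp only [e1]
    rw [Fin.sum_univ_succ]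
    have h2 : ∀ (z : Z) (w : Fin N → Z),
        |P 0 z * ∏ j : Fin N, P j.succ (w j) - Q 0 z * ∏ j : Fin N, Q j.succ (w j)| ≤
          |P 0 z - Q 0 z| * ∏ j : Fin N, P j.succ (w j) +
            Q 0 z * |∏ j : Fin N, P j.succ (w j) - ∏ j : Fin N, Q j.succ (w j)| := by
      intro z w
      have hp : 0 ≤ ∏ j : Fin N, P j.succ (w j) := prod_nonneg fun j _ => hP _ _
      have e : P 0 z * ∏ j : Fin N, P j.succ (w j) - Q 0 z * ∏ j : Fin N, Q j.succ (w j) =
          (P 0 z - Q 0 z) * ∏ j : Fin N, P j.succ (w j) +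
            Q 0 z * (∏ j : Fin N, P j.succ (w j) - ∏ j : Fin N, Q j.succ (w j)) := by ring
      rw [e]
      refine (abs_add_le _ _).trans (le_of_eq ?_)
      rw [abs_mul, abs_mul, abs_of_nonneg hp, abs_of_nonneg (hQ 0 z)]
    calc ∑ z, ∑ w : Fin N → Z,
          |P 0 z * ∏ j : Fin N, P j.succ (w j) - Q 0 z * ∏ j : Fin N, Q j.succ (w j)| ≤
        ∑ z, ∑ w : Fin N → Z, (|P 0 z - Q 0 z| * ∏ j : Fin N, P j.succ (w j) +
            Q 0 z * |∏ j : Fin N, P j.succ (w j) - ∏ j : Fin N, Q j.succ (w j)|) :=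
          sum_le_sum fun z _ => sum_le_sum fun w _ => h2 z w
      _ = ∑ z, (|P 0 z - Q 0 z| + Q 0 z *
            ∑ w : Fin N → Z, |∏ j : Fin N, P j.succ (w j) - ∏ j : Fin N, Q j.succ (w j)|) := by
          refine sum_congr rfl fun z _ => ?_
          rw [sum_add_distrib, ← mul_sum, ← mul_sum, hs, mul_one]
      _ = ∑ z, |P 0 z - Q 0 z| +
            ∑ w : Fin N → Z, |∏ j : Fin N, P j.succ (w j) - ∏ j : Fin N, Q j.succ (w j)| := by
          rw [sum_add_distrib, ← sum_mul, hQ1 0, one_mul]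
      _ ≤ _ := by linarith

/-- Concavity of `x ^ t`. -/
theorem sum_rpow_le (M : Z → ℝ) (hM : ∀ z, 0 ≤ M z) (h1 : ∑ z, M z = 1) {t : ℝ} (ht0 : 0 ≤ t)
    (ht1 : t ≤ 1) : ∑ z, M z ^ t ≤ (Fintype.card Z : ℝ) ^ (1 - t) := by
  classical
  have hne : Nonempty Z := by
    by_contra h
    rw [not_nonempty_iff] at h
    simp at h1
  obtain ⟨K, hK⟩ : ∃ K : ℝ, K = (Fintype.card Z : ℝ) := ⟨_, rfl⟩
  rw [← hK]
  have hK0 : 0 < K := by rw [hK]; exact_mod_cast Fintype.card_pos
  have h2 : ∀ z, M z ^ t ≤ K ^ (-t) * (1 + t * (K * M z - 1)) := by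
    intro z
    have h3 : (K * M z) ^ t ≤ 1 + t * (K * M z - 1) := by
      have h4 := rpow_one_add_le_one_add_mul_self (s := K * M z - 1) (by
        have := mul_nonneg hK0.le (hM z)
        linarith) ht0 ht1
      have e : 1 + (K * M z - 1) = K * M z := by ring
      rwa [e] at h4
    have h4 : M z ^ t = K ^ (-t) * (K * M z) ^ t := by
      rw [Real.mul_rpow hK0.le (hM z), ← mul_assoc, ← Real.rpow_add hK0]
      simp
    rw [h4]
    exact mul_le_mul_of_nonneg_left h3 (Real.rpow_nonneg hK0.le _)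
  calc ∑ z, M z ^ t ≤ ∑ z, K ^ (-t) * (1 + t * (K * M z - 1)) := sum_le_sum fun z _ => h2 z
    _ = K ^ (-t) * K := by
        rw [← mul_sum]
        congr 1
        rw [sum_add_distrib, ← mul_sum, sum_sub_distrib, ← mul_sum, h1, sum_const, card_univ,
          nsmul_eq_mul, ← hK]
        ring
    _ = K ^ (1 - t) := by
        rw [sub_eq_neg_add, Real.rpow_add hK0, Real.rpow_one]

end Pool.Agent.K9h49.MI
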