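import Pool.Agent.K9h49.DN.Unate
import Pool.Agent.Y636.CL.Pick

/-!
# Unate DNF formulas: variables with large influence
-/

set_option autoImplicit false

namespace Pool.Agent.K9h49.MI

open Finset Pool.Agent.Helper91K9.DL Pool.Agent.Y636.CL Pool.Agent.K9h49.DN

variable {n : ℕ}

/-- Every variable has a direction which never makes a true point false. -/
def UnateF (f : Hy n) : Prop :=
  ∀ i, ∃ σ, ∀ x, f x = true → f (Function.update x i σ) = true

theorem unate_of_mono {f : Hy n} (h : Monotone f) : UnateF f := by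
  intro i
  refine ⟨true, fun x hx => ?_⟩
  have h1 : x ≤ Function.update x i true := by
    intro j
    by_cases hj : j = i
    · subst hj; rw [Function.update_self]; exact Bool.le_true _
    · rw [Function.update_of_ne hj]
  have h2 := h h1
  rw [hx] at h2
  exact Bool.eq_true_of_true_le h2

/-- The set of true points. -/
def tr (f : Hy n) (x : Cube n) : Prop := f x = true

theorem inf_le_cor {f : Hy n} (hu : UnateF f) (i : Fin n) :
    Inf (tr f) i ≤ 2 * |cor (tr f) i true| := by
  obtain ⟨σ, h⟩ := hu i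
  have h' : ∀ x, x i = (!σ) → tr f x → tr f (fl i x) := by
    intro x hx hf
    have e : fl i x = Function.update x i σ := by
      unfold fl
      rw [hx, Bool.not_not]
    rw [e]
    exact h x hf
  refine (Inf_le_cor _ i σ h').trans ?_
  cases σ with
  | true => linarith [le_abs_self (cor (tr f) i true)]
  | false =>
    have h1 := cor_not (tr f) i true
    simp only [Bool.not_true] at h1
    rw [h1]
    linarith [neg_le_abs (cor (tr f) i true)]

theorem inf_close (f g : Cube n → Prop) (i : Fin n) :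
    Inf g i ≤ Inf f i + 2 * PP (fun x => ¬ (g x ↔ f x)) := by
  have h1 : Inf g i ≤ Inf f i + (PP (fun x => ¬ (g x ↔ f x)) +
      PP (fun x => ¬ (g (fl i x) ↔ f (fl i x)))) := by
    refine le_trans (PP_mono fun x hx => ?_) ((PP_or_le _ _).trans
      (add_le_add le_rfl (PP_or_le _ _)))
    tauto
  rw [PP_fl i (fun x => ¬ (g x ↔ f x))] at h1
  linarith

theorem PP_sat_le (T : Tm n) : PP (sat T) ≤ 1 / 2 ^ T.card := by
  classical
  rw [PP_eq, div_le_div_iff₀ (by positivity) (by positivity), one_mul]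
  have h := card_sat_le T
  have h2 : ((2 ^ T.card * (univ.filter fun x => sat T x).card : ℕ) : ℝ) ≤ ((2 ^ n : ℕ) : ℝ) := by
    exact_mod_cast h
  push_cast at h2
  rw [mul_comm]
  convert h2 using 3

/-- The short terms of a formula. -/
theorem exists_short {s : ℕ} {f : Hy n} (hf : Pool.Agent.W964.Wd.IsDnf s f) (l : ℕ) :
    ∃ D : Finset (Tm n), D.card + 1 ≤ s ∧ (∀ T ∈ D, T.card ≤ l) ∧
      PP (fun x => ¬ (tr (hyp D) x ↔ tr f x)) ≤ s / 2 ^ (l + 1) := by
  classical
  obtain ⟨r, t, hr, ht⟩ := hf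
  refine ⟨(univ.filter fun i => (t i).card ≤ l).image t, ?_, ?_, ?_⟩
  · have : ((univ.filter fun i => (t i).card ≤ l).image t).card ≤ r :=
      card_image_le.trans ((card_filter_le _ _).trans (by simp))
    omega
  · intro T hT
    obtain ⟨i, hi, rfl⟩ := mem_image.1 hT
    exact (mem_filter.1 hi).2
  · have h1 : PP (fun x => ¬ (tr (hyp ((univ.filter fun i => (t i).card ≤ l).image t)) x ↔
        tr f x)) ≤ PP (fun x => ∃ i ∈ univ.filter fun i => ¬ (t i).card ≤ l, sat (t i) x) := by
      refine PP_mono fun x hx => ?_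
      by_contra hcon
      push Not at hcon
      apply hx
      unfold tr
      rw [hyp_eq, ht]
      constructor
      · rintro ⟨T, hT, hs⟩
        obtain ⟨i, hi, rfl⟩ := mem_image.1 hT
        exact ⟨i, hs⟩
      · rintro ⟨i, hi⟩
        refine ⟨t i, mem_image_of_mem _ (mem_filter.2 ⟨mem_univ _, ?_⟩), hi⟩
        by_contra hc
        exact hcon i (mem_filter.2 ⟨mem_univ _, by simpa using hc⟩) hi
    refine h1.trans ((PP_exists_le _ _).trans ?_)
    calc ∑ i ∈ univ.filter fun i => ¬ (t i).card ≤ l, PP (sat (t i)) ≤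
        ∑ _i ∈ univ.filter fun i => ¬ (t i).card ≤ l, (1 : ℝ) / 2 ^ (l + 1) := by
          refine sum_le_sum fun i hi => (PP_sat_le _).trans ?_
          have h2 := (mem_filter.1 hi).2
          exact one_div_le_one_div_of_le (by positivity)
            (pow_le_pow_right₀ (by norm_num) (by omega))
      _ ≤ s * (1 / 2 ^ (l + 1)) := by
          rw [sum_const, nsmul_eq_mul]
          refine mul_le_mul_of_nonneg_right ?_ (by positivity)
          have h2 : (univ.filter fun i => ¬ (t i).card ≤ l).card ≤ s :=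
            (card_filter_le _ _).trans (by simp; omega)
          exact_mod_cast h2
      _ = _ := by ring

/-- The variables of a set of terms. -/
def dvars (D : Finset (Tm n)) : Finset (Fin n) := D.biUnion fun T => T.image Prod.fst

theorem card_dvars {D : Finset (Tm n)} {s l : ℕ} (h1 : D.card + 1 ≤ s)
    (h2 : ∀ T ∈ D, T.card ≤ l) : (dvars D).card ≤ s * l := by
  refine (card_biUnion_le_card_mul _ _ l fun T hT => card_image_le.trans (h2 T hT)).trans ?_
  exact Nat.mul_le_mul_right _ (by omega)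

theorem inf_zero {D : Finset (Tm n)} {i : Fin n} (h : i ∉ dvars D) : Inf (tr (hyp D)) i = 0 := by
  have h1 : ∀ x : Cube n, tr (hyp D) x ↔ tr (hyp D) (fl i x) := by
    intro x
    unfold tr
    rw [hyp_eq, hyp_eq]
    have h2 : ∀ T ∈ D, sat T x ↔ sat T (fl i x) := by
      intro T hT
      unfold sat
      refine forall₂_congr fun p hp => ?_
      have : p.1 ≠ i := by
        rintro rfl
        exact h (mem_biUnion.2 ⟨T, hT, mem_image_of_mem _ hp⟩)
      rw [fl_ne i x this]
    constructor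
    · rintro ⟨T, hT, hs⟩; exact ⟨T, hT, (h2 T hT).1 hs⟩
    · rintro ⟨T, hT, hs⟩; exact ⟨T, hT, (h2 T hT).2 hs⟩
  unfold Inf
  have h3 : PP (fun x : Cube n => ¬ (tr (hyp D) x ↔ tr (hyp D) (fl i x))) ≤
      PP (fun _ : Cube n => False) := PP_mono fun x hx => hx (h1 x)
  have h4 : PP (fun _ : Cube n => False) = 0 := by simp [PP]
  exact le_antisymm (h3.trans h4.le) (PP_nonneg _)

theorem card_J {s l : ℕ} {f : Hy n} (hf : Pool.Agent.W964.Wd.IsDnf s f) (J : Finset (Fin n))
    (hJ : ∀ i ∈ J, (s : ℝ) / 2 ^ l < Inf (tr f) i) : J.card ≤ s * l := by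
  obtain ⟨D, h1, h2, h3⟩ := exists_short hf l
  refine (card_le_card fun i hi => ?_).trans (card_dvars h1 h2)
  by_contra hcon
  have h4 := inf_close (tr (hyp D)) (tr f) i
  rw [inf_zero hcon] at h4
  have h5 : PP (fun x => ¬ (tr f x ↔ tr (hyp D) x)) = PP (fun x => ¬ (tr (hyp D) x ↔ tr f x)) :=
    PP_congr fun x => by tauto
  rw [h5] at h4
  have h6 := hJ i hi
  have h7 : (s : ℝ) / 2 ^ l = 2 * (s / 2 ^ (l + 1)) := by
    rw [pow_succ]; field_simp
  linarith

theorem err_eq (f h : Hy n) : Pool.Agent.W964.Wd.err f h = PP (fun x => h x ≠ f x) := by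
  classical
  unfold Pool.Agent.W964.Wd.err
  rw [PP_eq]

theorem junta {s l : ℕ} {f : Hy n} (hf : Pool.Agent.W964.Wd.IsDnf s f) (J : Finset (Fin n))
    {θ : ℝ} (hθ : 0 ≤ θ) (hJ : ∀ i, i ∉ J → Inf (tr f) i ≤ θ) :
    ∃ D : Finset (Tm n), D.card + 1 ≤ s ∧ (∀ T ∈ D, T.card ≤ l ∧ ∀ p ∈ T, p.1 ∈ J) ∧
      Pool.Agent.W964.Wd.err f (hyp D) ≤ s / 2 ^ (l + 1) + s * l * (θ + s / 2 ^ l) := by
  classical
  obtain ⟨D, h1, h2, h3⟩ := exists_short hf l
  set S := dvars D \ J with hS
  obtain ⟨z, hz⟩ := exists_fix (tr (hyp D)) S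
  have h7 : (s : ℝ) / 2 ^ l = 2 * (s / 2 ^ (l + 1)) := by
    rw [pow_succ]; field_simp
  have h4 : ∑ i ∈ S, Inf (tr (hyp D)) i ≤ s * l * (θ + s / 2 ^ l) := by
    calc ∑ i ∈ S, Inf (tr (hyp D)) i ≤ ∑ _i ∈ S, (θ + s / 2 ^ l) := by
          refine sum_le_sum fun i hi => ?_
          have h5 := inf_close (tr f) (tr (hyp D)) i
          have h6 := hJ i (mem_sdiff.1 hi).2
          linarith
      _ ≤ _ := by
          rw [sum_const, nsmul_eq_mul]
          refine mul_le_mul_of_nonneg_right ?_ (by positivity)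
          have h5 : S.card ≤ s * l := (card_le_card sdiff_subset).trans (card_dvars h1 h2)
          exact_mod_cast h5
  -- the restricted formula
  let D' : Finset (Tm n) := (D.filter fun T => ∀ p ∈ T, p.1 ∈ S → z p.1 = p.2).image
    fun T => T.filter fun p => p.1 ∉ S
  have h5 : ∀ x, hyp D' x = true ↔ hyp D (mix S x z) = true := by
    intro x
    rw [hyp_eq, hyp_eq]
    constructor
    · rintro ⟨T', hT', hs⟩
      obtain ⟨T, hT, rfl⟩ := mem_image.1 hT'
      obtain ⟨hT1, hT2⟩ := mem_filter.1 hT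
      refine ⟨T, hT1, fun p hp => ?_⟩
      unfold mix
      split_ifs with hpS
      · exact hT2 p hp hpS
      · exact hs p (mem_filter.2 ⟨hp, hpS⟩)
    · rintro ⟨T, hT, hs⟩
      refine ⟨T.filter fun p => p.1 ∉ S, mem_image_of_mem _ (mem_filter.2 ⟨hT, ?_⟩), ?_⟩
      · intro p hp hpS
        have := hs p hp
        unfold mix at this
        rwa [if_pos hpS] at this
      · intro p hp
        obtain ⟨hp1, hp2⟩ := mem_filter.1 hp
        have := hs p hp1
        unfold mix at this
        rwa [if_neg hp2] at this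
  refine ⟨D', ?_, ?_, ?_⟩
  · have : D'.card ≤ D.card := card_image_le.trans (card_filter_le _ _)
    omega
  · intro T' hT'
    obtain ⟨T, hT, rfl⟩ := mem_image.1 hT'
    have hT1 := (mem_filter.1 hT).1
    refine ⟨(card_filter_le _ _).trans (h2 T hT1), fun p hp => ?_⟩
    obtain ⟨hp1, hp2⟩ := mem_filter.1 hp
    by_contra hpJ
    exact hp2 (mem_sdiff.2 ⟨mem_biUnion.2 ⟨T, hT1, mem_image_of_mem _ hp1⟩, hpJ⟩)
  · rw [err_eq]
    have h6 : PP (fun x => hyp D' x ≠ f x) ≤ PP (fun x => ¬ (tr (hyp D) x ↔ tr f x)) +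
        PP (fun x => ¬ (tr (hyp D) x ↔ tr (hyp D) (mix S x z))) := by
      refine le_trans (PP_mono fun x hx => ?_) (PP_or_le _ _)
      by_contra hcon
      push Not at hcon
      obtain ⟨c1, c2⟩ := hcon
      apply hx
      rw [Bool.eq_iff_iff, h5]
      unfold tr at c1 c2
      rw [← c2, c1]
    linarith

end Pool.Agent.K9h49.MI
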