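import Pool.Agent.K9h49.MI.Tgt

/-!
# The lower bound for protocols without interaction
-/

set_option autoImplicit false

namespace Pool.Agent.K9h49.MI

open Finset Pool.Agent.Y636.CL
open Pool.Agent.W964.Wd hiding sg learnProb
open Pool.Agent.TH661.LPX (sg fI av)

variable {n κ B : ℕ}


/-! ### The targets are small DNF formulas -/

theorem card_par (hκ : 1 ≤ κ) (σ : Bool) :
    Fintype.card {ω : Fin κ → Bool // par ω = σ} = 2 ^ (κ - 1) := by
  classical
  have h5 : 2 ^ κ = 2 * 2 ^ (κ - 1) := by
    rw [← pow_succ']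
    congr 1
    omega
  have hflip : (univ.filter fun ω : Fin κ → Bool => par ω = true).card =
      (univ.filter fun ω : Fin κ → Bool => par ω = false).card := by
    have h0 : 0 < κ := hκ
    refine Finset.card_nbij' (fun x => Function.update x ⟨0, h0⟩ (!x ⟨0, h0⟩))
      (fun x => Function.update x ⟨0, h0⟩ (!x ⟨0, h0⟩)) ?_ ?_ (fun x _ => flip_flip x _)
      (fun x _ => flip_flip x _)
    · intro x hx
      have h := (Finset.mem_filter.1 (Finset.mem_coe.1 hx)).2
      refine Finset.mem_coe.2 (Finset.mem_filter.2 ⟨Finset.mem_univ _, ?_⟩)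
      rw [par_flip, h]; rfl
    · intro x hx
      have h := (Finset.mem_filter.1 (Finset.mem_coe.1 hx)).2
      refine Finset.mem_coe.2 (Finset.mem_filter.2 ⟨Finset.mem_univ _, ?_⟩)
      rw [par_flip, h]; rfl
  have hsum := card_filter_add_card_filter_not (s := (univ : Finset (Fin κ → Bool)))
    (fun ω => par ω = true)
  have e : (univ.filter fun ω : Fin κ → Bool => ¬ par ω = true) =
      univ.filter fun ω : Fin κ → Bool => par ω = false := by
    ext ω; simp
  rw [e, card_univ, Fintype.card_fun, Fintype.card_fin, Fintype.card_bool, h5] at hsum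
  rw [Fintype.card_subtype]
  cases σ <;> omega

theorem tf_dnf (hκ : 1 ≤ κ) (v : Fin κ × ZMod B → Fin n) (a : Fin κ → ZMod B) (σ : Bool) :
    IsDnf (2 ^ κ + 1) (tf v a σ) := by
  classical
  let ι := Fin κ ⊕ {ω : Fin κ → Bool // par ω = σ}
  let T : ι → Finset (Fin n × Bool) := fun s => s.elim
    (fun i => {(v (i, a i + bz B false), true), (v (i, a i + bz B true), true)})
    (fun ω => univ.image fun i => (v (i, a i + bz B (ω.1 i)), true))
  have hc : Fintype.card ι ≤ 2 ^ κ := by
    rw [Fintype.card_sum, Fintype.card_fin, card_par hκ]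
    have h1 : κ - 1 < 2 ^ (κ - 1) := Nat.lt_two_pow_self
    have h5 : 2 ^ κ = 2 * 2 ^ (κ - 1) := by
      rw [← pow_succ']
      congr 1
      omega
    omega
  refine ⟨Fintype.card ι, fun i => T ((Fintype.equivFin ι).symm i), by omega, fun x => ?_⟩
  have h1 : (∃ i, ∀ p ∈ T ((Fintype.equivFin ι).symm i), x p.1 = p.2) ↔
      ∃ s : ι, ∀ p ∈ T s, x p.1 = p.2 :=
    ⟨fun ⟨i, h⟩ => ⟨_, h⟩, fun ⟨s, h⟩ => ⟨Fintype.equivFin ι s, by simpa using h⟩⟩
  rw [h1, tf_iff]
  constructor
  · rintro (⟨i, h2, h3⟩ | ⟨h2, h3⟩)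
    · refine ⟨Sum.inl i, fun p hp => ?_⟩
      have hp' : p = (v (i, a i + bz B false), true) ∨ p = (v (i, a i + bz B true), true) := by
        simpa [T] using hp
      rcases hp' with rfl | rfl
      · exact h2
      · exact h3
    · refine ⟨Sum.inr ⟨fun i => rd v a x i true, h3⟩, fun p hp => ?_⟩
      obtain ⟨i, _, rfl⟩ := mem_image.1 (show p ∈ univ.image _ from hp)
      show rd v a x i (rd v a x i true) = true
      have := h2 i
      cases h : rd v a x i true
      · rw [h] at this
        simpa using this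
      · exact h
  · rintro ⟨s, hs⟩
    by_cases hh : Hit v a x
    · exact Or.inl hh
    · right
      rcases s with i | ω
      · exfalso
        apply hh
        exact ⟨i, hs (v (i, a i + bz B false), true) (by simp [T]),
          hs (v (i, a i + bz B true), true) (by simp [T])⟩
      · have h2 : ∀ i, rd v a x i (ω.1 i) = true := fun i =>
          hs (v (i, a i + bz B (ω.1 i)), true) (mem_image_of_mem _ (mem_univ i))
        have h3 : ∀ i, rd v a x i true = ω.1 i ∧ rd v a x i false = !(ω.1 i) := by
          intro i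
          have h4 := h2 i
          have h5 : ¬ (rd v a x i false = true ∧ rd v a x i true = true) := fun h => hh ⟨i, h⟩
          revert h4 h5
          cases ω.1 i <;> cases rd v a x i true <;> cases rd v a x i false <;> simp
        refine ⟨fun i => ?_, ?_⟩
        · rw [(h3 i).1, (h3 i).2]; simp
        · rw [← ω.2]
          congr 1
          funext i
          exact (h3 i).1

/-! ### No hypothesis is good for both targets -/

theorem bz_ne (hB : 2 ≤ B) (i : Fin κ) (v : Fin κ × ZMod B → Fin n)
    (hv : Function.Injective v) (a : Fin κ → ZMod B) (j : Fin κ) :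
    v (i, a i + bz B false) ≠ v (j, a j + bz B true) := by
  intro h
  have h1 := hv h
  simp only [Prod.mk.injEq] at h1
  obtain ⟨rfl, h2⟩ := h1
  have h3 : bz B false = bz B true := add_left_cancel h2
  unfold bz at h3
  have : Fact (1 < B) := ⟨hB⟩
  simp at h3

theorem card_spl (hB : 2 ≤ B) (v : Fin κ × ZMod B → Fin n) (hv : Function.Injective v)
    (a : Fin κ → ZMod B) :
    (2 : ℝ) ^ n ≤ 2 ^ κ * (open Classical in ((univ.filter fun x => Spl v a x).card : ℝ)) := by
  classical
  let U : (Fin n → Bool) → Finset (Fin κ) := fun x =>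
    univ.filter fun i => rd v a x i false = rd v a x i true
  let fl : Finset (Fin κ) → (Fin n → Bool) → (Fin n → Bool) := fun T x p =>
    if ∃ i ∈ T, p = v (i, a i + bz B false) then !(x p) else x p
  have hfl : ∀ T x, fl T (fl T x) = x := by
    intro T x
    funext p
    by_cases h : ∃ i ∈ T, p = v (i, a i + bz B false)
    · simp only [fl, if_pos h, Bool.not_not]
    · simp only [fl, if_neg h]
  have h1 : (univ : Finset (Fin n → Bool)).card ≤
      ((univ.filter fun x => Spl v a x) ×ˢ (univ : Finset (Finset (Fin κ)))).card := by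
    refine card_le_card_of_injOn (fun x => (fl (U x) x, U x)) ?_ ?_
    · intro x _
      rw [mem_coe, mem_product, mem_filter]
      refine ⟨⟨mem_univ _, fun i => ?_⟩, mem_univ _⟩
      have e1 : rd v a (fl (U x) x) i true = rd v a x i true := by
        show fl (U x) x (v (i, a i + bz B true)) = _
        have : ¬ ∃ j ∈ U x, v (i, a i + bz B true) = v (j, a j + bz B false) := by
          rintro ⟨j, _, hj⟩
          exact bz_ne hB j v hv a i hj.symm
        simp only [fl, if_neg this]
        rfl
      rw [e1]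
      show fl (U x) x (v (i, a i + bz B false)) ≠ _
      by_cases hi : i ∈ U x
      · have : ∃ j ∈ U x, v (i, a i + bz B false) = v (j, a j + bz B false) := ⟨i, hi, rfl⟩
        simp only [fl, if_pos this]
        have h2 : rd v a x i false = rd v a x i true := (mem_filter.1 hi).2
        have h3 : x (v (i, a i + bz B false)) = rd v a x i false := rfl
        rw [h3, h2]
        simp
      · have : ¬ ∃ j ∈ U x, v (i, a i + bz B false) = v (j, a j + bz B false) := by
          rintro ⟨j, hj, h⟩
          have := (Prod.ext_iff.1 (hv h)).1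
          simp only at this
          exact hi (this ▸ hj)
        simp only [fl, if_neg this]
        intro h
        exact hi (mem_filter.2 ⟨mem_univ _, h⟩)
    · intro x _ y _ h
      simp only [Prod.mk.injEq] at h
      rw [← hfl (U x) x, h.1, h.2, hfl]
  rw [card_product, card_univ, card_univ, Fintype.card_fun, Fintype.card_finset, Fintype.card_fin,
    Fintype.card_bool, Fintype.card_fin] at h1
  have h2 : ((2 ^ n : ℕ) : ℝ) ≤
      (((univ.filter fun x => Spl v a x).card * 2 ^ κ : ℕ) : ℝ) := by exact_mod_cast h1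
  push_cast at h2
  rw [mul_comm]
  convert h2 using 2

theorem not_both (hB : 2 ≤ B) (v : Fin κ × ZMod B → Fin n) (hv : Function.Injective v)
    (a : Fin κ → ZMod B) {η : ℝ} (hη : η < 1 / 2 ^ (κ + 1)) (h : Hy n)
    (h1 : err (tf v a true) h ≤ η) : ¬ err (tf v a false) h ≤ η := by
  classical
  intro h2
  unfold err at h1 h2
  have hn : (0 : ℝ) < 2 ^ n := by positivity
  rw [div_le_iff₀ hn] at h1 h2
  have h3 : (univ.filter fun x => Spl v a x).card ≤
      (univ.filter fun x => h x ≠ tf v a true x).card +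
      (univ.filter fun x => h x ≠ tf v a false x).card := by
    refine (card_le_card fun x hx => ?_).trans (card_union_le _ _)
    have hs := (mem_filter.1 hx).2
    have hnh := not_hit_of_spl hs
    have ht : tf v a true x = par fun i => rd v a x i true := by
      rw [Bool.eq_iff_iff, tf_iff]
      tauto
    have hf : tf v a false x = !(par fun i => rd v a x i true) := by
      rw [Bool.eq_iff_iff, tf_iff]
      simp only [Bool.not_eq_true', hnh, hs, false_or, true_and]
    rw [mem_union, mem_filter, mem_filter, ht, hf]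
    cases h x <;> cases (par fun i => rd v a x i true) <;> simp
  have h4 := card_spl hB v hv a
  have h3' : ((univ.filter fun x => Spl v a x).card : ℝ) ≤
      ((univ.filter fun x => h x ≠ tf v a true x).card : ℝ) +
      ((univ.filter fun x => h x ≠ tf v a false x).card : ℝ) := by exact_mod_cast h3
  have h5 : (2 : ℝ) ^ κ * ((univ.filter fun x => Spl v a x).card : ℝ) ≤ 2 ^ κ * (2 * η * 2 ^ n) := by
    refine mul_le_mul_of_nonneg_left ?_ (by positivity)
    have e1 : ((univ.filter fun x => h x ≠ tf v a true x).card : ℝ) ≤ η * 2 ^ n := by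
      convert h1 using 3
    have e2 : ((univ.filter fun x => h x ≠ tf v a false x).card : ℝ) ≤ η * 2 ^ n := by
      convert h2 using 3
    linarith
  have h6 : (2 : ℝ) ^ n ≤ 2 ^ κ * (2 * η * 2 ^ n) := by
    refine le_trans ?_ h5
    convert h4 using 3
  have h7 : (2 : ℝ) ^ κ * (2 * η) < 1 := by
    rw [lt_div_iff₀ (by positivity), pow_succ] at hη
    linarith
  nlinarith

/-! ### Protocols without interaction -/

/-- The examples with the message `z`. -/
def cl {m : ℕ} (q : Fin m → Ex n → Bool) (z : Fin m → Bool) : Finset (Ex n) :=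
  univ.filter fun e => (fun k => q k e) = z

open Classical in
/-- The probability of the message `z`. -/
noncomputable def pr {m : ℕ} (q : Fin m → Ex n → Bool) (f : Hy n) (z : Fin m → Bool) : ℝ :=
  av fun x => if (x, f x) ∈ cl q z then (1 : ℝ) else 0

theorem pr_nonneg {m : ℕ} (q : Fin m → Ex n → Bool) (f : Hy n) (z : Fin m → Bool) :
    0 ≤ pr q f z :=
  Pool.Agent.TH661.LPX.av_nonneg fun x => by split_ifs <;> norm_num

theorem pr_card {m : ℕ} (q : Fin m → Ex n → Bool) (f : Hy n) (z : Fin m → Bool) :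
    pr q f z = ((univ.filter fun x : Fin n → Bool => (fun k => q k (x, f x)) = z).card : ℝ) /
      2 ^ n := by
  classical
  unfold pr Pool.Agent.TH661.LPX.av
  rw [Fintype.card_fun, Fintype.card_fin, Fintype.card_bool, card_filter]
  push_cast
  congr 1
  refine sum_congr rfl fun x _ => ?_
  unfold cl
  simp only [mem_filter, mem_univ, true_and]

theorem pr_sum {m : ℕ} (q : Fin m → Ex n → Bool) (f : Hy n) : ∑ z, pr q f z = 1 := by
  classical
  simp only [pr_card]
  rw [← sum_div, ← Nat.cast_sum]
  have h := card_eq_sum_card_fiberwise (s := (univ : Finset (Fin n → Bool)))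
    (t := (univ : Finset (Fin m → Bool))) (f := fun x => fun k => q k (x, f x))
    (fun _ _ => mem_coe.2 (mem_univ _))
  rw [← h, card_univ, Fintype.card_fun, Fintype.card_fin, Fintype.card_bool]
  push_cast
  exact div_self (by positivity)

theorem ms_sum {m : ℕ} (q : Fin m → Ex n → Bool) : ∑ z, ms (uw n) (cl q z) = 1 := by
  classical
  rw [← ms_uw_univ (n := n)]
  unfold ms cl
  exact sum_fiberwise (univ : Finset (Ex n)) (fun e => fun k => q k e) (uw n)

open Classical in
theorem learnProb_silent {N m : ℕ} (q : Fin N → Fin m → Ex n → Bool)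
    (g : (Fin N → Fin m → Bool) → Hy n) (f : Hy n) (η : ℝ) :
    learnProb (fun e => g fun i k => q i k (e i)) f η =
      ∑ w : Fin N → Fin m → Bool, (if err f (g w) ≤ η then (1 : ℝ) else 0) *
        ∏ j, pr (q j) f (w j) := by
  unfold Pool.Agent.Y636.CL.learnProb
  have h1 : ∀ w : Fin N → Fin m → Bool, ∏ j, pr (q j) f (w j) =
      ((univ.filter fun X : Fin N → Fin n → Bool =>
        (fun i k => q i k (X i, f (X i))) = w).card : ℝ) / (2 ^ n) ^ N := by
    intro w
    simp only [pr_card]
    rw [prod_div_distrib, prod_const, card_univ, Fintype.card_fin]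
    congr 1
    have h2 : (univ.filter fun X : Fin N → Fin n → Bool =>
        (fun i k => q i k (X i, f (X i))) = w) =
        Fintype.piFinset fun j => univ.filter fun x : Fin n → Bool =>
          (fun k => q j k (x, f x)) = w j := by
      ext X
      simp [Fintype.mem_piFinset, funext_iff]
    rw [h2, Fintype.card_piFinset]
    push_cast
    rfl
  simp only [h1]
  have h3 := card_eq_sum_card_fiberwise (s := univ.filter fun X : Fin N → Fin n → Bool =>
      err f (g fun i k => q i k (X i, f (X i))) ≤ η)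
    (t := (univ : Finset (Fin N → Fin m → Bool))) (f := fun X => fun i k => q i k (X i, f (X i)))
    (fun _ _ => mem_coe.2 (mem_univ _))
  rw [h3]
  push_cast
  rw [sum_div]
  refine sum_congr rfl fun w _ => ?_
  rw [filter_filter]
  split_ifs with hw
  · rw [one_mul]
    congr 3
    ext X
    simp only [mem_filter, mem_univ, true_and, and_iff_right_iff_imp]
    intro h
    rw [h]; exact hw
  · rw [zero_mul]
    have : (univ.filter fun X : Fin N → Fin n → Bool =>
        err f (g fun i k => q i k (X i, f (X i))) ≤ η ∧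
          (fun i k => q i k (X i, f (X i))) = w) = ∅ := by
      refine filter_eq_empty_iff.2 fun X _ h => hw ?_
      rw [← h.2]; exact h.1
    rw [this]
    simp

/-- The difference between the message distributions. -/
noncomputable def dd {m : ℕ} (q : Fin m → Ex n → Bool) (v : Fin κ × ZMod B → Fin n)
    (a : Fin κ → ZMod B) : ℝ :=
  ∑ z, |pr q (tf v a true) z - pr q (tf v a false) z|

theorem pr_diff {m : ℕ} (q : Fin m → Ex n → Bool) (v : Fin κ × ZMod B → Fin n)
    (a : Fin κ → ZMod B) (z : Fin m → Bool) :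
    |pr q (tf v a true) z - pr q (tf v a false) z| =
      2 * |av fun x => Pool.Agent.Y636.CL.fold (cl q z) x * psi v a x| := by
  classical
  have h1 : pr q (tf v a true) z - pr q (tf v a false) z =
      2 * (-1) ^ κ * av fun x => Pool.Agent.Y636.CL.fold (cl q z) x * psi v a x := by
    unfold pr
    rw [← Pool.Agent.TH661.LPX.av_sub, ← Pool.Agent.TH661.LPX.av_mul_left]
    refine Pool.Agent.TH661.LPX.av_congr fun x => ?_
    rw [← diff_eq]
  rw [h1, abs_mul, abs_mul, abs_pow]
  simp

theorem sum_dd [NeZero B] {m : ℕ} (hκ : 1 ≤ κ) (hκm : κ ≤ m) (q : Fin m → Ex n → Bool)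
    (v : Fin κ × ZMod B → Fin n) (hv : Function.Injective v) :
    ∑ a, dd q v a ≤ 2 * Real.sqrt ((4 * m * B / κ) ^ κ) := by
  classical
  have hκ0 : (0 : ℝ) < κ := by exact_mod_cast hκ
  have hm0 : (0 : ℝ) < m := by exact_mod_cast (by omega : 0 < m)
  have hB0 : (0 : ℝ) < B := by exact_mod_cast Nat.pos_of_ne_zero (NeZero.ne B)
  obtain ⟨ρ, hρ⟩ : ∃ ρ : ℝ, ρ = κ / m := ⟨_, rfl⟩
  have h0 : 0 < ρ := by rw [hρ]; positivity
  have h1 : ρ ≤ 1 := by
    rw [hρ, div_le_one hm0]
    exact_mod_cast hκm
  have h2 : ∀ z : Fin m → Bool,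
      ∑ a : Fin κ → ZMod B, |av fun x => Pool.Agent.Y636.CL.fold (cl q z) x * psi v a x| ≤
        Real.sqrt (B ^ κ * ρ⁻¹ ^ κ) * ms (uw n) (cl q z) ^ (1 / (1 + ρ)) := by
    intro z
    have hM := ms_nonneg (w := uw n) uw_nonneg (cl q z)
    have h3 := sum_mul_sq_le_sq_mul_sq (univ : Finset (Fin κ → ZMod B)) (fun _ => (1 : ℝ))
      (fun a => |av fun x => Pool.Agent.Y636.CL.fold (cl q z) x * psi v a x|)
    simp only [one_mul, one_pow, sq_abs] at h3
    rw [sum_const, card_univ, Fintype.card_fun, Fintype.card_fin, ZMod.card, nsmul_eq_mul,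
      mul_one] at h3
    have h4 := sum_av_sq v hv (cl q z) h0 h1
    have h5 : (∑ a : Fin κ → ZMod B,
        |av fun x => Pool.Agent.Y636.CL.fold (cl q z) x * psi v a x|) ^ 2 ≤
        (B ^ κ * ρ⁻¹ ^ κ) * (ms (uw n) (cl q z) ^ (1 / (1 + ρ))) ^ 2 := by
      refine h3.trans ?_
      have e : (ms (uw n) (cl q z) ^ (1 / (1 + ρ))) ^ 2 = ms (uw n) (cl q z) ^ (2 / (1 + ρ)) := by
        rw [← Real.rpow_natCast, ← Real.rpow_mul hM]
        congr 1
        push_cast
        ring
      rw [e, mul_assoc]
      push_cast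
      exact mul_le_mul_of_nonneg_left h4 (by positivity)
    have h6 := Real.sqrt_le_sqrt h5
    rw [Real.sqrt_sq (sum_nonneg fun a _ => abs_nonneg _), Real.sqrt_mul (by positivity),
      Real.sqrt_sq (Real.rpow_nonneg hM _)] at h6
    exact h6
  have h3 : ∑ a, dd q v a = 2 * ∑ z : Fin m → Bool, ∑ a : Fin κ → ZMod B,
      |av fun x => Pool.Agent.Y636.CL.fold (cl q z) x * psi v a x| := by
    unfold dd
    rw [sum_comm, mul_sum]
    refine sum_congr rfl fun z _ => ?_
    rw [mul_sum]
    exact sum_congr rfl fun a _ => pr_diff q v a z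
  rw [h3]
  refine mul_le_mul_of_nonneg_left ?_ (by norm_num)
  refine (sum_le_sum fun z _ => h2 z).trans ?_
  rw [← mul_sum]
  have ht0 : 0 ≤ 1 / (1 + ρ) := by positivity
  have ht1 : 1 / (1 + ρ) ≤ 1 := by
    rw [div_le_one (by positivity)]; linarith
  have h4 := sum_rpow_le (fun z : Fin m → Bool => ms (uw n) (cl q z))
    (fun z => ms_nonneg (w := uw n) uw_nonneg _) (ms_sum q) ht0 ht1
  have h5 : ((Fintype.card (Fin m → Bool) : ℕ) : ℝ) ^ (1 - 1 / (1 + ρ)) ≤ 2 ^ κ := by
    rw [Fintype.card_fun, Fintype.card_fin, Fintype.card_bool]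
    push_cast
    rw [← Real.rpow_natCast 2 m, ← Real.rpow_mul (by norm_num), ← Real.rpow_natCast 2 κ]
    refine Real.rpow_le_rpow_of_exponent_le (by norm_num) ?_
    have h6 : 1 - 1 / (1 + ρ) ≤ ρ := by
      have : 1 - ρ ≤ 1 / (1 + ρ) := by
        rw [le_div_iff₀ (by positivity)]
        nlinarith
      linarith
    calc (m : ℝ) * (1 - 1 / (1 + ρ)) ≤ m * ρ := mul_le_mul_of_nonneg_left h6 hm0.le
      _ = κ := by rw [hρ]; field_simp
  calc Real.sqrt (B ^ κ * ρ⁻¹ ^ κ) * ∑ z : Fin m → Bool, ms (uw n) (cl q z) ^ (1 / (1 + ρ)) ≤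
      Real.sqrt (B ^ κ * ρ⁻¹ ^ κ) * 2 ^ κ :=
        mul_le_mul_of_nonneg_left (h4.trans h5) (Real.sqrt_nonneg _)
    _ = Real.sqrt ((4 * m * B / κ) ^ κ) := by
        have e : (2 : ℝ) ^ κ = Real.sqrt (4 ^ κ) := by
          have e1 : (4 : ℝ) ^ κ = (2 ^ κ) ^ 2 := by
            rw [← pow_mul, mul_comm κ 2, pow_mul]; norm_num
          rw [e1, Real.sqrt_sq (by positivity)]
        rw [e, ← Real.sqrt_mul (by positivity), ← mul_pow, ← mul_pow, hρ]
        congr 2
        field_simp

/-- The success probabilities for a pair of targets. -/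
theorem pair_le (hB : 2 ≤ B) {N m : ℕ} (q : Fin N → Fin m → Ex n → Bool)
    (g : (Fin N → Fin m → Bool) → Hy n) (v : Fin κ × ZMod B → Fin n)
    (hv : Function.Injective v) (a : Fin κ → ZMod B) {η : ℝ} (hη : η < 1 / 2 ^ (κ + 1)) :
    learnProb (fun e => g fun i k => q i k (e i)) (tf v a true) η +
      learnProb (fun e => g fun i k => q i k (e i)) (tf v a false) η ≤ 1 + ∑ j, dd (q j) v a := by
  classical
  rw [learnProb_silent, learnProb_silent, ← sum_add_distrib]
  have hh := hybrid (fun j => pr (q j) (tf v a true)) (fun j => pr (q j) (tf v a false))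
    (fun j z => pr_nonneg _ _ _) (fun j z => pr_nonneg _ _ _) (fun j => pr_sum _ _)
    (fun j => pr_sum _ _)
  have h1 := sum_prod_one (fun j => pr (q j) (tf v a false)) (fun j => pr_sum _ _)
  unfold dd
  refine le_trans ?_ (add_le_add h1.le hh)
  rw [← sum_add_distrib]
  refine sum_le_sum fun w _ => ?_
  have hp : 0 ≤ ∏ j, pr (q j) (tf v a false) (w j) := prod_nonneg fun j _ => pr_nonneg _ _ _
  have hab := le_abs_self (∏ j, pr (q j) (tf v a true) (w j) - ∏ j, pr (q j) (tf v a false) (w j))
  have hab0 := abs_nonneg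
    (∏ j, pr (q j) (tf v a true) (w j) - ∏ j, pr (q j) (tf v a false) (w j))
  by_cases ht : err (tf v a true) (g w) ≤ η
  · rw [if_pos ht, if_neg (not_both hB v hv a hη (g w) ht)]
    linarith
  · rw [if_neg ht]
    by_cases hf : err (tf v a false) (g w) ≤ η
    · rw [if_pos hf]
      linarith
    · rw [if_neg hf]
      linarith

/-- The lower bound for protocols without interaction. -/
theorem low_main {N m : ℕ} (hκ : 1 ≤ κ) (hκm : κ ≤ m) (hB : 2 ≤ B) (hn : κ * B ≤ n) {R : Type}
    [Fintype R] [Nonempty R] (π : R → Prot N (Ex n) (Hy n)) (hs : ∀ r, (π r).Silent m)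
    {η : ℝ} (hη : η < 1 / 2 ^ (κ + 1)) :
    ∃ f : Hy n, Monotone f ∧ IsDnf (2 ^ κ + 1) f ∧ learnProbR (fun r => (π r).run) f η ≤
      1 / 2 + N * Real.sqrt ((4 * m / (κ * B)) ^ κ) := by
  classical
  have : NeZero B := ⟨by omega⟩
  have hκ0 : (0 : ℝ) < κ := by exact_mod_cast hκ
  have hB0 : (0 : ℝ) < B := by exact_mod_cast (by omega : 0 < B)
  have hm0 : (0 : ℝ) < m := by exact_mod_cast (by omega : 0 < m)
  -- the places
  let v : Fin κ × ZMod B → Fin n := fun p => ⟨p.1.1 * B + p.2.val, by
    have h1 := p.1.2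
    have h2 := ZMod.val_lt p.2
    have h3 : (p.1.1 + 1) * B ≤ κ * B := Nat.mul_le_mul_right _ h1
    nlinarith⟩
  have hv : Function.Injective v := by
    intro p p' h
    have h1 : p.1.1 * B + p.2.val = p'.1.1 * B + p'.2.val := congrArg Fin.val h
    have h2 := ZMod.val_lt p.2
    have h3 := ZMod.val_lt p'.2
    have h4 : p.1.1 = p'.1.1 := by
      have e1 : (p.1.1 * B + p.2.val) / B = p.1.1 := by
        rw [mul_comm, Nat.mul_add_div (by omega), Nat.div_eq_of_lt h2, add_zero]
      have e2 : (p'.1.1 * B + p'.2.val) / B = p'.1.1 := by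
        rw [mul_comm, Nat.mul_add_div (by omega), Nat.div_eq_of_lt h3, add_zero]
      rw [← e1, h1, e2]
    have h5 : p.2.val = p'.2.val := by rw [h4] at h1; omega
    exact Prod.ext (Fin.ext h4) (ZMod.val_injective B h5)
  by_contra hcon
  push Not at hcon
  set K : ℝ := 1 / 2 + N * Real.sqrt ((4 * m / (κ * B)) ^ κ) with hK
  have h1 : ∀ a : Fin κ → ZMod B, 2 * K <
      learnProbR (fun r => (π r).run) (tf v a true) η +
      learnProbR (fun r => (π r).run) (tf v a false) η := by
    intro a
    have e1 := hcon (tf v a true) (tf_mono v a true) (tf_dnf hκ v a true)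
    have e2 := hcon (tf v a false) (tf_mono v a false) (tf_dnf hκ v a false)
    linarith
  have h2 : ∑ _a : Fin κ → ZMod B, 2 * K < ∑ a : Fin κ → ZMod B,
      (learnProbR (fun r => (π r).run) (tf v a true) η +
      learnProbR (fun r => (π r).run) (tf v a false) η) :=
    sum_lt_sum_of_nonempty univ_nonempty fun a _ => h1 a
  have h3 : ∀ r, ∑ a : Fin κ → ZMod B, (learnProb (π r).run (tf v a true) η +
      learnProb (π r).run (tf v a false) η) ≤
      B ^ κ + N * (2 * Real.sqrt ((4 * m * B / κ) ^ κ)) := by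
    intro r
    obtain ⟨q, g, hqg⟩ := hs r
    have e : (π r).run = fun e => g fun i k => q i k (e i) := funext hqg
    rw [e]
    refine (sum_le_sum fun a _ => pair_le hB q g v hv a hη).trans ?_
    rw [sum_add_distrib, sum_const, card_univ, Fintype.card_fun, Fintype.card_fin, ZMod.card,
      nsmul_eq_mul, mul_one, sum_comm]
    push_cast
    have h4 := sum_le_sum fun (j : Fin N) (_ : j ∈ (univ : Finset (Fin N))) =>
      sum_dd hκ hκm (q j) v hv
    rw [sum_const, card_univ, Fintype.card_fin, nsmul_eq_mul] at h4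
    linarith
  have h4 : ∑ a : Fin κ → ZMod B,
      (learnProbR (fun r => (π r).run) (tf v a true) η +
      learnProbR (fun r => (π r).run) (tf v a false) η) ≤
      B ^ κ + N * (2 * Real.sqrt ((4 * m * B / κ) ^ κ)) := by
    unfold learnProbR
    have hR : (0 : ℝ) < Fintype.card R := by exact_mod_cast Fintype.card_pos
    have e : ∀ a : Fin κ → ZMod B,
        (∑ r, learnProb (π r).run (tf v a true) η) / (Fintype.card R : ℝ) +
        (∑ r, learnProb (π r).run (tf v a false) η) / (Fintype.card R : ℝ) =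
        (∑ r, (learnProb (π r).run (tf v a true) η + learnProb (π r).run (tf v a false) η)) /
          (Fintype.card R : ℝ) := by
      intro a
      rw [← add_div, sum_add_distrib]
    simp only [e]
    rw [← sum_div, sum_comm, div_le_iff₀ hR]
    refine (sum_le_sum fun r _ => h3 r).trans (le_of_eq ?_)
    rw [sum_const, card_univ, nsmul_eq_mul]
    ring
  have h5 := h2.trans_le h4
  rw [sum_const, card_univ, Fintype.card_fun, Fintype.card_fin, ZMod.card, nsmul_eq_mul] at h5
  push_cast at h5
  have h6 : Real.sqrt ((4 * m * B / κ) ^ κ) =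
      B ^ κ * Real.sqrt ((4 * m / (κ * B)) ^ κ) := by
    have e : ((4 * m * B / κ : ℝ)) ^ κ = (B ^ κ) ^ 2 * (4 * m / (κ * B)) ^ κ := by
      rw [← pow_mul, mul_comm κ 2, pow_mul, ← mul_pow]
      congr 1
      field_simp
    rw [e, Real.sqrt_mul (by positivity), Real.sqrt_sq (by positivity)]
  rw [h6, hK] at h5
  have h7 : (0 : ℝ) < (B : ℝ) ^ κ := by positivity
  nlinarith

end Pool.Agent.K9h49.MI
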