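import Pool.Agent.K9h49.MI.Up
import Pool.Agent.K9h49.MI.Low

/-!
# The separation
-/

set_option autoImplicit false

namespace Pool.Agent.K9h49.MI

open Finset Pool.Agent.W964.Wd Pool.Agent.Y636.CL

theorem lin_le_sq {κ : ℕ} (h : 3 ≤ κ) : 6 * κ + 16 ≤ (2 ^ κ) ^ 2 := by
  induction κ, h using Nat.le_induction with
  | base => norm_num
  | succ k hk ih =>
    have : (2 ^ (k + 1)) ^ 2 = 4 * (2 ^ k) ^ 2 := by ring
    rw [this]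
    omega

theorem lin_le {κ : ℕ} (h : 3 ≤ κ) : κ + 4 ≤ 2 ^ κ := by
  induction κ, h using Nat.le_induction with
  | base => norm_num
  | succ k hk ih =>
    rw [pow_succ]
    omega

theorem lin_le_sq' {κ : ℕ} (h : 3 ≤ κ) : 8 * κ + 2 ≤ (2 ^ κ) ^ 2 := by
  induction κ, h using Nat.le_induction with
  | base => norm_num
  | succ k hk ih =>
    have : (2 ^ (k + 1)) ^ 2 = 4 * (2 ^ k) ^ 2 := by ring
    rw [this]
    omega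

theorem exp_aux {κ : ℕ} (h : 3 ≤ κ) : (κ ^ 2 + 2) * 2 ≤ (4 * κ - 3) * κ := by
  obtain ⟨t, rfl⟩ : ∃ t, κ = t + 3 := ⟨κ - 3, by omega⟩
  have h6 : 4 * (t + 3) - 3 = 4 * t + 9 := by omega
  rw [h6]
  nlinarith

theorem log_two_pow_le (k : ℕ) : Real.log (2 ^ k) ≤ k := by
  rw [Real.log_pow]
  have h1 : Real.log 2 ≤ 1 := by
    have := Real.log_two_lt_d9
    linarith
  have h2 : (0 : ℝ) ≤ k := Nat.cast_nonneg k
  nlinarith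

theorem sep_up {κ N : ℕ} (hκ : 3 ≤ κ) (hN : 2 ^ (26 * κ) ≤ N) :
    ∃ π : Prot N (Ex (2 ^ (8 * κ))) (Hy (2 ^ (8 * κ))), (∀ j, π.load j ≤ 2 ^ (4 * κ)) ∧
      (∃ m m' : ℕ, m + m' ≤ 2 ^ (4 * κ) ∧ TwoRounds m m' π) ∧
      ∀ f : Hy (2 ^ (8 * κ)), IsDnf (2 ^ κ + 1) f → UnateF f →
        1 - 1 / 2 ^ (κ + 2) ≤ learnProb π.run f (1 / 2 ^ (κ + 2)) := by
  obtain ⟨P, hP⟩ : ∃ P : ℕ, P = 2 ^ κ := ⟨_, rfl⟩
  have hP8 : 8 ≤ P := by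
    rw [hP]
    calc 8 = 2 ^ 3 := by norm_num
      _ ≤ 2 ^ κ := Nat.pow_le_pow_right (by norm_num) hκ
  have hPR : (8 : ℝ) ≤ P := by exact_mod_cast hP8
  obtain ⟨u, hu⟩ : ∃ u : ℕ, u = 6 * κ + 16 := ⟨_, rfl⟩
  have huP : u ≤ P ^ 2 := by rw [hu, hP]; exact lin_le_sq hκ
  have huR : (u : ℝ) ≤ (P : ℝ) ^ 2 := by exact_mod_cast huP
  have hu1 : 1 ≤ u := by omega
  have hu1R : (1 : ℝ) ≤ u := by exact_mod_cast hu1
  have hb : ∃ b : ℕ, 4 * b = P ^ 4 := by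
    refine ⟨2 ^ (4 * κ - 2), ?_⟩
    rw [hP, ← pow_mul]
    calc 4 * 2 ^ (4 * κ - 2) = 2 ^ (2 + (4 * κ - 2)) := by rw [pow_add]; norm_num
      _ = 2 ^ (κ * 4) := by congr 1; omega
  obtain ⟨b, hb⟩ := hb
  have hn : 2 ^ (8 * κ) = P ^ 8 := by rw [hP, ← pow_mul]; congr 1; ring
  have hm : 2 ^ (4 * κ) = P ^ 4 := by rw [hP, ← pow_mul]; congr 1; ring
  have hP4 : 8 * P ^ 3 ≤ P ^ 4 := by
    calc 8 * P ^ 3 ≤ P * P ^ 3 := Nat.mul_le_mul_right _ hP8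
      _ = P ^ 4 := by ring
  have hsl : (2 ^ κ + 1) * u ≤ b := by
    rw [← hP]
    have h1 : (P + 1) * u ≤ (2 * P) * P ^ 2 := Nat.mul_le_mul (by omega) huP
    have h2 : (2 * P) * P ^ 2 = 2 * P ^ 3 := by ring
    omega
  have hP3 : 1 ≤ P ^ 3 := Nat.one_le_pow _ _ (by omega)
  have hε : (1 : ℝ) / 2 ^ (κ + 2) = 1 / (4 * P) := by
    rw [hP, pow_add]; push_cast; ring
  have hb1 : 1 ≤ b := by omega
  have hQ : (2 ^ (8 * κ)) / b + 1 = 4 * P ^ 4 + 1 := by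
    rw [hn]
    congr 1
    have : P ^ 8 = b * (4 * P ^ 4) := by
      calc P ^ 8 = P ^ 4 * P ^ 4 := by ring
        _ = (4 * b) * P ^ 4 := by rw [hb]
        _ = _ := by ring
    rw [this]
    exact Nat.mul_div_cancel_left _ hb1
  have hl : 64 * (((2 ^ κ + 1 : ℕ) : ℝ)) ^ 2 * u ≤ 1 / 2 ^ (κ + 2) * 2 ^ u := by
    have h1 : (2 : ℝ) ^ u = 2 ^ 16 * (P : ℝ) ^ 6 := by
      rw [hu, hP, pow_add]
      push_cast
      rw [← pow_mul, mul_comm]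
      congr 2
      ring
    rw [h1, hε, ← hP]
    push_cast
    have h2 : ((P : ℝ) + 1) ^ 2 ≤ 4 * (P : ℝ) ^ 2 := by nlinarith
    have h3 : 64 * ((P : ℝ) + 1) ^ 2 * u ≤ 64 * (4 * (P : ℝ) ^ 2) * (P : ℝ) ^ 2 := by
      refine mul_le_mul (by linarith) huR (by linarith) (by positivity)
    refine h3.trans ?_
    have h4 : 1 / (4 * (P : ℝ)) * (2 ^ 16 * (P : ℝ) ^ 6) = 2 ^ 14 * (P : ℝ) ^ 5 := by
      field_simp
      norm_num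
    rw [h4]
    have h5 : (P : ℝ) ^ 4 ≤ (P : ℝ) ^ 5 := pow_le_pow_right₀ (by linarith) (by norm_num)
    nlinarith [pow_nonneg (by linarith : (0 : ℝ) ≤ P) 4]
  have hNb : (((2 ^ (8 * κ)) / b + 1 : ℕ) : ℝ) * (2 ^ 15 * ((2 ^ κ + 1 : ℕ) : ℝ) ^ 2 *
      (u : ℝ) ^ 2 / (1 / 2 ^ (κ + 2)) ^ 2 *
      ((u : ℝ) * ((2 ^ κ + 1 : ℕ) : ℝ) * Real.log (2 * ((2 ^ (8 * κ) : ℕ) : ℝ) + 2) +
        Real.log (4 / (1 / 2 ^ (κ + 2)))) + 1) ≤ N := by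
    rw [hQ]
    -- the logarithms
    have hlog1 : Real.log (2 * ((2 ^ (8 * κ) : ℕ) : ℝ) + 2) ≤ (P : ℝ) ^ 2 := by
      have h1 : (2 * ((2 ^ (8 * κ) : ℕ) : ℝ) + 2) ≤ 2 ^ (8 * κ + 2) := by
        push_cast
        rw [pow_add]
        have : (1 : ℝ) ≤ 2 ^ (8 * κ) := one_le_pow₀ (by norm_num)
        linarith
      refine (Real.log_le_log (by positivity) h1).trans ((log_two_pow_le _).trans ?_)
      have := lin_le_sq' hκ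
      rw [← hP] at this
      exact_mod_cast this
    have hlog2 : Real.log (4 / (1 / 2 ^ (κ + 2))) ≤ P := by
      have h1 : (4 : ℝ) / (1 / 2 ^ (κ + 2)) = 2 ^ (κ + 4) := by
        rw [div_div_eq_mul_div, div_one, show κ + 4 = 2 + (κ + 2) by ring, pow_add (2 : ℝ) 2]
        norm_num
      rw [h1]
      refine (log_two_pow_le _).trans ?_
      have := lin_le hκ
      rw [← hP] at this
      exact_mod_cast this
    rw [hε]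
    rw [hε] at hlog2
    have hsP : ((2 ^ κ + 1 : ℕ) : ℝ) ≤ 2 * P := by
      rw [← hP]
      push_cast
      linarith
    have hs0 : (0 : ℝ) ≤ ((2 ^ κ + 1 : ℕ) : ℝ) := Nat.cast_nonneg _
    set s : ℝ := ((2 ^ κ + 1 : ℕ) : ℝ) with hs
    set L1 := Real.log (2 * ((2 ^ (8 * κ) : ℕ) : ℝ) + 2) with hL1
    set L2 := Real.log (4 / (1 / (4 * (P : ℝ)))) with hL2
    have hL10 : 0 ≤ L1 := Real.log_nonneg (by
      have : (0 : ℝ) ≤ ((2 ^ (8 * κ) : ℕ) : ℝ) := Nat.cast_nonneg _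
      linarith)
    have hP0 : (0 : ℝ) < P := by linarith
    have e1 : (u : ℝ) * s * L1 + L2 ≤ 3 * (P : ℝ) ^ 5 := by
      have h1 : (u : ℝ) * s ≤ (P : ℝ) ^ 2 * (2 * P) := mul_le_mul huR hsP hs0 (by positivity)
      have h2 : (u : ℝ) * s * L1 ≤ ((P : ℝ) ^ 2 * (2 * P)) * (P : ℝ) ^ 2 :=
        mul_le_mul h1 hlog1 hL10 (by positivity)
      have h3 : (P : ℝ) ≤ (P : ℝ) ^ 5 := le_self_pow₀ (by linarith) (by norm_num)
      have h4 : ((P : ℝ) ^ 2 * (2 * P)) * (P : ℝ) ^ 2 = 2 * (P : ℝ) ^ 5 := by ring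
      linarith
    have e2 : 2 ^ 15 * s ^ 2 * (u : ℝ) ^ 2 / (1 / (4 * (P : ℝ))) ^ 2 ≤ 2 ^ 21 * (P : ℝ) ^ 8 := by
      have h1 : 2 ^ 15 * s ^ 2 * (u : ℝ) ^ 2 / (1 / (4 * (P : ℝ))) ^ 2 =
          2 ^ 15 * (s ^ 2 * (u : ℝ) ^ 2) * (4 * (P : ℝ)) ^ 2 := by
        field_simp
      rw [h1]
      have h2 : s ^ 2 ≤ (2 * (P : ℝ)) ^ 2 := pow_le_pow_left₀ hs0 hsP 2
      have h3 : (u : ℝ) ^ 2 ≤ ((P : ℝ) ^ 2) ^ 2 := pow_le_pow_left₀ (by linarith) huR 2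
      have h4 : s ^ 2 * (u : ℝ) ^ 2 ≤ (2 * (P : ℝ)) ^ 2 * ((P : ℝ) ^ 2) ^ 2 :=
        mul_le_mul h2 h3 (by positivity) (by positivity)
      calc 2 ^ 15 * (s ^ 2 * (u : ℝ) ^ 2) * (4 * (P : ℝ)) ^ 2 ≤
          2 ^ 15 * ((2 * (P : ℝ)) ^ 2 * ((P : ℝ) ^ 2) ^ 2) * (4 * (P : ℝ)) ^ 2 := by gcongr
        _ = _ := by ring
    have e3 : 2 ^ 15 * s ^ 2 * (u : ℝ) ^ 2 / (1 / (4 * (P : ℝ))) ^ 2 * ((u : ℝ) * s * L1 + L2) ≤
        2 ^ 21 * (P : ℝ) ^ 8 * (3 * (P : ℝ) ^ 5) := by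
      have h5 : 2 ^ 15 * s ^ 2 * (u : ℝ) ^ 2 / (1 / (4 * (P : ℝ))) ^ 2 * ((u : ℝ) * s * L1 + L2) ≤
          2 ^ 15 * s ^ 2 * (u : ℝ) ^ 2 / (1 / (4 * (P : ℝ))) ^ 2 * (3 * (P : ℝ) ^ 5) :=
        mul_le_mul_of_nonneg_left e1 (by positivity)
      exact h5.trans (mul_le_mul_of_nonneg_right e2 (by positivity))
    have e4 : ((4 * P ^ 4 + 1 : ℕ) : ℝ) ≤ 5 * (P : ℝ) ^ 4 := by
      push_cast
      have : (1 : ℝ) ≤ (P : ℝ) ^ 4 := one_le_pow₀ (by linarith)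
      linarith
    have e5 : (1 : ℝ) ≤ (P : ℝ) ^ 13 := one_le_pow₀ (by linarith)
    have e6 : 2 ^ 21 * (P : ℝ) ^ 8 * (3 * (P : ℝ) ^ 5) + 1 ≤ 2 ^ 23 * (P : ℝ) ^ 13 := by
      have : 2 ^ 21 * (P : ℝ) ^ 8 * (3 * (P : ℝ) ^ 5) = 3 * 2 ^ 21 * (P : ℝ) ^ 13 := by ring
      rw [this]
      linarith
    have e7 : (2 ^ (26 * κ) : ℝ) = (P : ℝ) ^ 26 := by
      rw [hP]
      push_cast
      rw [← pow_mul]
      congr 1
      ring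
    have e8 : (P : ℝ) ^ 26 ≤ N := by
      rw [← e7]
      exact_mod_cast hN
    have e9 : (2 : ℝ) ^ 27 ≤ (P : ℝ) ^ 9 := by
      calc (2 : ℝ) ^ 27 = 8 ^ 9 := by norm_num
        _ ≤ (P : ℝ) ^ 9 := pow_le_pow_left₀ (by norm_num) hPR 9
    calc ((4 * P ^ 4 + 1 : ℕ) : ℝ) * (2 ^ 15 * s ^ 2 * (u : ℝ) ^ 2 / (1 / (4 * (P : ℝ))) ^ 2 *
          ((u : ℝ) * s * L1 + L2) + 1) ≤ (5 * (P : ℝ) ^ 4) * (2 ^ 23 * (P : ℝ) ^ 13) :=
        mul_le_mul e4 (by linarith) (by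
          have : 0 ≤ (u : ℝ) * s * L1 + L2 := by
            have h5 : 0 ≤ L2 := Real.log_nonneg (by
              rw [div_div_eq_mul_div, div_one]; linarith)
            positivity
          positivity) (by positivity)
      _ = 5 * 2 ^ 23 * (P : ℝ) ^ 17 := by ring
      _ ≤ (P : ℝ) ^ 9 * (P : ℝ) ^ 17 := by
        refine mul_le_mul_of_nonneg_right ?_ (by positivity)
        linarith
      _ = (P : ℝ) ^ 26 := by ring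
      _ ≤ N := e8
  obtain ⟨π, h1, h2, h3⟩ := up_main (n := 2 ^ (8 * κ)) (N := N) (s := 2 ^ κ + 1) (l := u) (b := b)
    (ε := 1 / 2 ^ (κ + 2)) (δ := 1 / 2 ^ (κ + 2)) (by omega) hu1 (by positivity)
    (by positivity) hl hsl hNb
    (by
      rw [div_le_one (by positivity)]
      exact one_le_pow₀ (by norm_num))
  refine ⟨π, fun j => (h1 j).trans ?_, ⟨_, _, ?_, h2⟩, h3⟩
  · rw [hm]
    omega
  · rw [hm]
    omega

theorem sep_low {κ N : ℕ} (hκ : 3 ≤ κ) (hN : N ≤ 2 ^ (κ ^ 2)) {R : Type} [Fintype R]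
    [Nonempty R] (π : R → Prot N (Ex (2 ^ (8 * κ))) (Hy (2 ^ (8 * κ))))
    (hs : ∀ r, (π r).Silent (2 ^ (4 * κ))) :
    ∃ f : Hy (2 ^ (8 * κ)), Monotone f ∧ IsDnf (2 ^ κ + 1) f ∧
      learnProbR (fun r => (π r).run) f (1 / 2 ^ (κ + 2)) ≤ 3 / 4 := by
  have hκn : κ ≤ 2 ^ (4 * κ) := by
    have h1 : κ < 2 ^ κ := Nat.lt_two_pow_self
    have h2 : 2 ^ κ ≤ 2 ^ (4 * κ) := Nat.pow_le_pow_right (by norm_num) (by omega)
    omega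
  have hn : 2 ^ (8 * κ) = 2 ^ (4 * κ) * 2 ^ (4 * κ) := by rw [← pow_add]; congr 1; ring
  have h8 : 2 ≤ 2 ^ (4 * κ) := by
    calc 2 = 2 ^ 1 := by norm_num
      _ ≤ 2 ^ (4 * κ) := Nat.pow_le_pow_right (by norm_num) (by omega)
  have hκn2 : 2 * κ ≤ 2 ^ (8 * κ) := by
    rw [hn]
    exact Nat.mul_le_mul h8 hκn
  set B := 2 ^ (8 * κ) / κ with hB
  have hκB : κ * B ≤ 2 ^ (8 * κ) := Nat.mul_div_le _ _
  have hB2 : 2 ≤ B := by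
    rw [hB, Nat.le_div_iff_mul_le (by omega)]
    exact hκn2
  have hκB2 : 2 ^ (8 * κ) ≤ 2 * (κ * B) := by
    have h1 := Nat.lt_mul_div_succ (2 ^ (8 * κ)) (by omega : 0 < κ)
    rw [← hB, mul_add, mul_one] at h1
    have h2 : κ ≤ κ * B := Nat.le_mul_of_pos_right κ (by omega)
    omega
  obtain ⟨f, h1, h2, h3⟩ := low_main (n := 2 ^ (8 * κ)) (κ := κ) (B := B) (N := N)
    (m := 2 ^ (4 * κ)) (by omega) hκn hB2 hκB π hs (η := 1 / 2 ^ (κ + 2)) (by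
      refine one_div_lt_one_div_of_lt (by positivity) ?_
      exact pow_lt_pow_right₀ (by norm_num) (by omega))
  refine ⟨f, h1, h2, h3.trans ?_⟩
  have hκB2R : (2 : ℝ) ^ (8 * κ) ≤ 2 * (κ * B) := by exact_mod_cast hκB2
  have hκBpos : (0 : ℝ) < (κ : ℝ) * B := by
    have : (0 : ℝ) < 2 ^ (8 * κ) := by positivity
    linarith
  have h4 : 4 * ((2 ^ (4 * κ) : ℕ) : ℝ) / (κ * B) ≤ 1 / 2 ^ (4 * κ - 3) := by
    rw [div_le_div_iff₀ hκBpos (by positivity), one_mul]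
    push_cast
    have h5 : (2 : ℝ) ^ (8 * κ) = 2 ^ (4 * κ) * (8 * 2 ^ (4 * κ - 3)) := by
      have h6 : (8 : ℝ) * 2 ^ (4 * κ - 3) = 2 ^ (4 * κ) := by
        rw [show (8 : ℝ) = 2 ^ 3 by norm_num, ← pow_add]
        congr 1
        omega
      rw [h6, ← pow_add]
      congr 1
      ring
    rw [h5] at hκB2R
    linarith
  have h5 : (4 * ((2 ^ (4 * κ) : ℕ) : ℝ) / (κ * B)) ^ κ ≤ (1 / 2 ^ (κ ^ 2 + 2)) ^ 2 := by
    refine (pow_le_pow_left₀ (by positivity) h4 κ).trans ?_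
    rw [one_div_pow, one_div_pow, ← pow_mul, ← pow_mul]
    exact one_div_le_one_div_of_le (by positivity) (pow_le_pow_right₀ (by norm_num) (exp_aux hκ))
  have h6 : Real.sqrt ((4 * ((2 ^ (4 * κ) : ℕ) : ℝ) / (κ * B)) ^ κ) ≤ 1 / 2 ^ (κ ^ 2 + 2) := by
    rw [Real.sqrt_le_left (by positivity)]
    exact h5
  have h7 : (N : ℝ) * Real.sqrt ((4 * ((2 ^ (4 * κ) : ℕ) : ℝ) / (κ * B)) ^ κ) ≤
      2 ^ (κ ^ 2) * (1 / 2 ^ (κ ^ 2 + 2)) := by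
    refine mul_le_mul ?_ h6 (Real.sqrt_nonneg _) (by positivity)
    exact_mod_cast hN
  have h8 : (2 : ℝ) ^ (κ ^ 2) * (1 / 2 ^ (κ ^ 2 + 2)) = 1 / 4 := by
    rw [pow_add]
    field_simp
    norm_num
  linarith

end Pool.Agent.K9h49.MI
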