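import Pool.Agent.Y636.CL.Four
import Pool.Agent.Y636.CL.Sim
import Pool.Agent.K9h49.MI.Hyb

/-!
# Monotone targets made of pairs of variables
-/

set_option autoImplicit false

namespace Pool.Agent.K9h49.MI

open Finset Pool.Agent.Y636.CL
open Pool.Agent.W964.Wd hiding sg learnProb
open Pool.Agent.TH661.LPX (sg fI av)

variable {n κ B : ℕ}


/-- The offset of the two elements of a pair. -/
def bz (B : ℕ) (c : Bool) : ZMod B := if c then 1 else 0

/-- The value of the element `c` of the pair `i`. -/
def rd (v : Fin κ × ZMod B → Fin n) (a : Fin κ → ZMod B) (x : Fin n → Bool) (i : Fin κ)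
    (c : Bool) : Bool := x (v (i, a i + bz B c))

/-- All pairs are split. -/
def Spl (v : Fin κ × ZMod B → Fin n) (a : Fin κ → ZMod B) (x : Fin n → Bool) : Prop :=
  ∀ i, rd v a x i false ≠ rd v a x i true

/-- Some pair is true. -/
def Hit (v : Fin κ × ZMod B → Fin n) (a : Fin κ → ZMod B) (x : Fin n → Bool) : Prop :=
  ∃ i, rd v a x i false = true ∧ rd v a x i true = true

open Classical in
/-- The target. -/
noncomputable def tf (v : Fin κ × ZMod B → Fin n) (a : Fin κ → ZMod B) (σ : Bool)
    (x : Fin n → Bool) : Bool :=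
  decide (Hit v a x ∨ (Spl v a x ∧ par (fun i => rd v a x i true) = σ))

theorem tf_iff (v : Fin κ × ZMod B → Fin n) (a : Fin κ → ZMod B) (σ : Bool) (x : Fin n → Bool) :
    tf v a σ x = true ↔ Hit v a x ∨ (Spl v a x ∧ par (fun i => rd v a x i true) = σ) := by
  unfold tf; simp

theorem not_hit_of_spl {v : Fin κ × ZMod B → Fin n} {a : Fin κ → ZMod B} {x : Fin n → Bool}
    (h : Spl v a x) : ¬ Hit v a x := by
  rintro ⟨i, h1, h2⟩
  exact h i (h1.trans h2.symm)

theorem tf_mono (v : Fin κ × ZMod B → Fin n) (a : Fin κ → ZMod B) (σ : Bool) :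
    Monotone (tf v a σ) := by
  intro x y hxy
  by_cases hx : tf v a σ x = true
  · rw [hx]
    have hy : tf v a σ y = true := by
      rw [tf_iff] at hx ⊢
      have hm : ∀ i c, rd v a x i c = true → rd v a y i c = true := by
        intro i c h
        have := hxy (v (i, a i + bz B c))
        unfold rd at h ⊢
        rw [h] at this
        exact Bool.eq_true_of_true_le this
      rcases hx with ⟨i, h1, h2⟩ | ⟨h1, h2⟩
      · exact Or.inl ⟨i, hm _ _ h1, hm _ _ h2⟩
      · by_cases hy : Hit v a y
        · exact Or.inl hy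
        · right
          have he : ∀ i c, rd v a y i c = rd v a x i c := by
            intro i c
            have h3 := h1 i
            by_contra hne
            apply hy
            have h4 : rd v a x i c = false ∧ rd v a y i c = true := by
              have := hm i c
              revert this hne
              cases rd v a x i c <;> cases rd v a y i c <;> simp
            refine ⟨i, ?_, ?_⟩
            · cases c
              · exact h4.2
              · refine hm i false ?_
                rw [h4.1] at h3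
                simpa using h3
            · cases c
              · refine hm i true ?_
                rw [h4.1] at h3
                simpa using h3.symm
              · exact h4.2
          refine ⟨fun i => by rw [he, he]; exact h1 i, ?_⟩
          rw [← h2]
          congr 1
          funext i
          exact he i true
    rw [hy]
  · rw [Bool.eq_false_iff.2 hx]
    exact Bool.false_le _

/-- The product of the differences. -/
noncomputable def psi (v : Fin κ × ZMod B → Fin n) (a : Fin κ → ZMod B) (x : Fin n → Bool) : ℝ :=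
  ∏ i, ((sg (rd v a x i false) - sg (rd v a x i true)) / 2)

theorem psi_eq (v : Fin κ × ZMod B → Fin n) (a : Fin κ → ZMod B) (x : Fin n → Bool) :
    (Spl v a x → psi v a x = (-1) ^ κ * sg (par fun i => rd v a x i true)) ∧
      (¬ Spl v a x → psi v a x = 0) := by
  constructor
  · intro h
    have h1 : sg (par fun i => rd v a x i true) = ∏ i, sg (rd v a x i true) :=
      sg_par (fun i => rd v a x i true)
    rw [h1]
    unfold psi
    have h2 : ∀ i, (sg (rd v a x i false) - sg (rd v a x i true)) / 2 =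
        (-1) * sg (rd v a x i true) := by
      intro i
      have := h i
      revert this
      unfold Pool.Agent.TH661.LPX.sg
      cases rd v a x i false <;> cases rd v a x i true <;> simp <;> norm_num
    rw [prod_congr rfl fun i _ => h2 i, prod_mul_distrib, prod_const, card_univ, Fintype.card_fin]
  · intro h
    unfold Spl at h
    push Not at h
    obtain ⟨i, hi⟩ := h
    refine prod_eq_zero (mem_univ i) ?_
    rw [hi]
    simp

open Classical in
/-- The difference of the two targets, seen through a set of examples. -/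
theorem diff_eq (v : Fin κ × ZMod B → Fin n) (a : Fin κ → ZMod B) (x : Fin n → Bool)
    (A : Finset (Ex n)) :
    (if (x, tf v a true x) ∈ A then (1 : ℝ) else 0) - (if (x, tf v a false x) ∈ A then 1 else 0) =
      2 * (-1) ^ κ * (fold A x * psi v a x) := by
  by_cases hs : Spl v a x
  · rw [(psi_eq v a x).1 hs]
    have hk : ((-1 : ℝ) ^ κ) * (-1) ^ κ = 1 := by
      rw [← mul_pow]; simp
    have ht : tf v a true x = par fun i => rd v a x i true := by
      rw [Bool.eq_iff_iff, tf_iff]
      have := not_hit_of_spl hs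
      tauto
    have hf : tf v a false x = !(par fun i => rd v a x i true) := by
      rw [Bool.eq_iff_iff, tf_iff]
      have := not_hit_of_spl hs
      simp only [Bool.not_eq_true', this, hs, false_or, true_and]
    rw [ht, hf]
    have e : 2 * (-1 : ℝ) ^ κ * (fold A x * ((-1) ^ κ * sg (par fun i => rd v a x i true))) =
        2 * fold A x * sg (par fun i => rd v a x i true) := by
      calc _ = (((-1 : ℝ) ^ κ) * (-1) ^ κ) * (2 * fold A x * sg (par fun i => rd v a x i true)) := by
            ring
        _ = _ := by rw [hk, one_mul]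
    rw [e]
    unfold Pool.Agent.Y636.CL.fold Pool.Agent.TH661.LPX.sg
    cases par fun i => rd v a x i true <;> simp <;> ring
  · rw [(psi_eq v a x).2 hs]
    have ht : tf v a true x = tf v a false x := by
      rw [Bool.eq_iff_iff, tf_iff, tf_iff]
      tauto
    rw [ht]
    simp

/-- The transversal with the pattern `ω`. -/
def tv (v : Fin κ × ZMod B → Fin n) (a : Fin κ → ZMod B) (ω : Fin κ → Bool) : Finset (Fin n) :=
  univ.image fun i => v (i, a i + bz B (ω i))

theorem psi_expand (v : Fin κ × ZMod B → Fin n) (hv : Function.Injective v)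
    (a : Fin κ → ZMod B) (x : Fin n → Bool) :
    psi v a x = (1 / 2) ^ κ * ∑ ω : Fin κ → Bool, (∏ i, sg (ω i)) * ∏ p ∈ tv v a ω, sg (x p) := by
  have h1 : psi v a x = (1 / 2) ^ κ * ∏ i, ∑ c : Bool, sg c * sg (rd v a x i c) := by
    unfold psi
    have h2 : ∀ i, (sg (rd v a x i false) - sg (rd v a x i true)) / 2 =
        (1 / 2) * ∑ c : Bool, sg c * sg (rd v a x i c) := by
      intro i
      rw [Fintype.sum_bool]
      have e1 : sg true = -1 := by simp [Pool.Agent.TH661.LPX.sg]
      have e2 : sg false = 1 := by simp [Pool.Agent.TH661.LPX.sg]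
      rw [e1, e2]
      ring
    rw [prod_congr rfl fun i _ => h2 i, prod_mul_distrib, prod_const, card_univ, Fintype.card_fin]
  rw [h1]
  congr 1
  have h3 := Finset.prod_univ_sum (fun _ : Fin κ => (univ : Finset Bool))
    (fun i c => sg c * sg (rd v a x i c))
  rw [Fintype.piFinset_univ] at h3
  rw [h3]
  refine sum_congr rfl fun ω _ => ?_
  rw [prod_mul_distrib]
  congr 1
  unfold tv
  rw [prod_image]
  · rfl
  · intro i _ j _ h
    exact (Prod.ext_iff.1 (hv h)).1

theorem av_psi (v : Fin κ × ZMod B → Fin n) (hv : Function.Injective v)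
    (a : Fin κ → ZMod B) (G : (Fin n → Bool) → ℝ) :
    av (fun x => G x * psi v a x) =
      (1 / 2) ^ κ * ∑ ω : Fin κ → Bool, (∏ i, sg (ω i)) * fI G (tv v a ω) := by
  have h1 : ∀ x, G x * psi v a x =
      ∑ ω : Fin κ → Bool, ((1 / 2) ^ κ * ∏ i, sg (ω i)) * (G x * ∏ p ∈ tv v a ω, sg (x p)) := by
    intro x
    rw [psi_expand v hv, mul_left_comm, mul_sum, mul_sum]
    refine sum_congr rfl fun ω _ => ?_
    ring
  rw [Pool.Agent.TH661.LPX.av_congr h1, Pool.Agent.TH661.LPX.av_sum, mul_sum]
  refine sum_congr rfl fun ω _ => ?_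
  rw [Pool.Agent.TH661.LPX.av_mul_left]
  unfold Pool.Agent.TH661.LPX.fI
  ring

theorem av_psi_sq (v : Fin κ × ZMod B → Fin n) (hv : Function.Injective v)
    (a : Fin κ → ZMod B) (G : (Fin n → Bool) → ℝ) :
    (av (fun x => G x * psi v a x)) ^ 2 ≤
      (1 / 2) ^ κ * ∑ ω : Fin κ → Bool, fI G (tv v a ω) ^ 2 := by
  rw [av_psi v hv]
  have h1 := sum_mul_sq_le_sq_mul_sq (univ : Finset (Fin κ → Bool)) (fun ω => ∏ i, sg (ω i))
    (fun ω => fI G (tv v a ω))
  have h2 : ∑ ω : Fin κ → Bool, (∏ i, sg (ω i)) ^ 2 = 2 ^ κ := by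
    have : ∀ ω : Fin κ → Bool, (∏ i, sg (ω i)) ^ 2 = 1 := by
      intro ω
      rcases chi_cases ω with h | h
      · have : ∏ i, sg (ω i) = 1 := h
        rw [this]; norm_num
      · have : ∏ i, sg (ω i) = -1 := h
        rw [this]; norm_num
    rw [sum_congr rfl fun ω _ => this ω, sum_const, card_univ, Fintype.card_fun, Fintype.card_fin,
      Fintype.card_bool]
    simp
  rw [h2] at h1
  rw [mul_pow]
  have h3 : ((1 / 2 : ℝ) ^ κ) ^ 2 * 2 ^ κ = (1 / 2) ^ κ := by
    rw [sq, mul_assoc, ← mul_pow]
    norm_num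
  calc ((1 / 2 : ℝ) ^ κ) ^ 2 * (∑ ω : Fin κ → Bool, (∏ i, sg (ω i)) * fI G (tv v a ω)) ^ 2 ≤
        ((1 / 2 : ℝ) ^ κ) ^ 2 * (2 ^ κ * ∑ ω : Fin κ → Bool, fI G (tv v a ω) ^ 2) :=
        mul_le_mul_of_nonneg_left h1 (by positivity)
    _ = ((1 / 2 : ℝ) ^ κ) ^ 2 * 2 ^ κ * ∑ ω : Fin κ → Bool, fI G (tv v a ω) ^ 2 := by ring
    _ = _ := by rw [h3]

theorem sum_tv [NeZero B] (v : Fin κ × ZMod B → Fin n) (hv : Function.Injective v)
    (ω : Fin κ → Bool) (G : Finset (Fin n) → ℝ) (hG : ∀ S, 0 ≤ G S) :
    ∑ a : Fin κ → ZMod B, G (tv v a ω) ≤ ∑ S ∈ powersetCard κ (univ : Finset (Fin n)), G S := by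
  classical
  have hinj : Function.Injective fun a : Fin κ → ZMod B => tv v a ω := by
    intro a a' h
    funext i
    have h1 : v (i, a i + bz B (ω i)) ∈ tv v a' ω := by
      have : v (i, a i + bz B (ω i)) ∈ tv v a ω := mem_image_of_mem _ (mem_univ i)
      have h' : tv v a ω = tv v a' ω := h
      rwa [h'] at this
    obtain ⟨j, _, hj⟩ := mem_image.1 h1
    have h2 := hv hj
    simp only [Prod.mk.injEq] at h2
    obtain ⟨rfl, h3⟩ := h2
    exact (add_right_cancel h3).symm
  have h1 : ∑ a : Fin κ → ZMod B, G (tv v a ω) =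
      ∑ S ∈ (univ : Finset (Fin κ → ZMod B)).image fun a => tv v a ω, G S := by
    rw [sum_image]
    intro a _ a' _ h
    exact hinj h
  rw [h1]
  refine sum_le_sum_of_subset_of_nonneg ?_ fun S _ _ => hG S
  intro S hS
  obtain ⟨a, _, rfl⟩ := mem_image.1 hS
  rw [mem_powersetCard]
  refine ⟨subset_univ _, ?_⟩
  unfold tv
  rw [card_image_of_injective, card_univ, Fintype.card_fin]
  intro i j h
  exact (Prod.ext_iff.1 (hv h)).1

/-- The level inequality gives a bound for the sum over all targets. -/
theorem sum_av_sq [NeZero B] (v : Fin κ × ZMod B → Fin n) (hv : Function.Injective v)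
    (A : Finset (Ex n)) {ρ : ℝ} (h0 : 0 < ρ) (h1 : ρ ≤ 1) :
    ∑ a : Fin κ → ZMod B, (av (fun x => fold A x * psi v a x)) ^ 2 ≤
      ρ⁻¹ ^ κ * ms (uw n) A ^ (2 / (1 + ρ)) := by
  have hl := level h0 h1 A κ
  calc ∑ a : Fin κ → ZMod B, (av (fun x => fold A x * psi v a x)) ^ 2 ≤
      ∑ a : Fin κ → ZMod B, (1 / 2) ^ κ * ∑ ω : Fin κ → Bool, fI (fold A) (tv v a ω) ^ 2 :=
        sum_le_sum fun a _ => av_psi_sq v hv a _
    _ = (1 / 2) ^ κ * ∑ ω : Fin κ → Bool, ∑ a : Fin κ → ZMod B, fI (fold A) (tv v a ω) ^ 2 := by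
        rw [← mul_sum, sum_comm]
    _ ≤ (1 / 2) ^ κ * ∑ _ω : Fin κ → Bool,
          ∑ S ∈ powersetCard κ (univ : Finset (Fin n)), fI (fold A) S ^ 2 := by
        refine mul_le_mul_of_nonneg_left (sum_le_sum fun ω _ => ?_) (by positivity)
        exact sum_tv v hv ω (fun S => fI (fold A) S ^ 2) fun S => sq_nonneg _
    _ = ∑ S ∈ powersetCard κ (univ : Finset (Fin n)), fI (fold A) S ^ 2 := by
        rw [sum_const, card_univ, Fintype.card_fun, Fintype.card_fin, Fintype.card_bool,
          nsmul_eq_mul, ← mul_assoc]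
        push_cast
        rw [← mul_pow]
        norm_num
    _ ≤ _ := by
        have e : ∑ S ∈ powersetCard κ (univ : Finset (Fin n)), fI (fold A) S ^ 2 =
            ∑ S ∈ powersetCard κ (univ : Finset (Fin n)), ms (fun e => uw n e * ph S e) A ^ 2 :=
          sum_congr rfl fun S _ => by rw [ms_uw_ph]
        rw [e, inv_pow, inv_mul_eq_div, le_div_iff₀ (by positivity), mul_comm]
        exact hl

end Pool.Agent.K9h49.MI
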