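import Pool.Agent.Y636.CL.Sim

/-!
# Protocols with two rounds of messages
-/

set_option autoImplicit false

namespace Pool.Agent.K9h49.MI

open Finset Pool.Agent.W964.Wd Pool.Agent.Y636.CL

variable {N m m' : ℕ} {E H H' : Type}

/-- The protocol has two rounds: first every party sends `m` bits computed from its element, then
every party sends `m'` bits computed from its element and all messages of the first round; the
output is a function of all messages. -/
def TwoRounds (m m' : ℕ) (π : Prot N E H) : Prop :=
  ∃ (q : Fin N → Fin m → E → Bool) (q' : (Fin N → Fin m → Bool) → Fin N → Fin m' → E → Bool)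
    (g : (Fin N → Fin m → Bool) → (Fin N → Fin m' → Bool) → H),
    ∀ e, π.run e = g (fun i k => q i k (e i))
      (fun i k => q' (fun i k => q i k (e i)) i k (e i))

/-- Composition. -/
def bind : Prot N E H → (H → Prot N E H') → Prot N E H'
  | .out h, f => f h
  | .say i q l r, f => .say i q (bind l f) (bind r f)

theorem bind_run (π : Prot N E H) (f : H → Prot N E H') (e : Fin N → E) :
    (bind π f).run e = (f (π.run e)).run e := by
  induction π with
  | out h => rfl
  | say i q l r ihl ihr =>
    rw [bind, Prot.run, Prot.run]
    split_ifs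
    · exact ihr
    · exact ihl

theorem bind_load (π : Prot N E H) (f : H → Prot N E H') (j : Fin N) (c : ℕ)
    (hf : ∀ h, (f h).load j ≤ c) : (bind π f).load j ≤ π.load j + c := by
  induction π with
  | out h =>
    rw [bind, Prot.load]
    have := hf h
    omega
  | say i q l r ihl ihr =>
    rw [bind, Prot.load, Prot.load]
    omega

theorem exists_two (q : Fin N → Fin m → E → Bool)
    (q' : (Fin N → Fin m → Bool) → Fin N → Fin m' → E → Bool)
    (g : (Fin N → Fin m → Bool) → (Fin N → Fin m' → Bool) → H) [Nonempty H] :
    ∃ π : Prot N E H, (∀ e, π.run e = g (fun i k => q i k (e i))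
      (fun i k => q' (fun i k => q i k (e i)) i k (e i))) ∧ (∀ j, π.load j ≤ m + m') ∧
      TwoRounds m m' π := by
  classical
  obtain ⟨π₁, h1, h2, _⟩ := exists_silent (H := Fin N → Fin m → Bool) q
    (fun e i k => q i k (e i)) (fun e e' h => by funext i k; exact h i k)
  choose π₂ h3 h4 _ using fun w : Fin N → Fin m → Bool =>
    exists_silent (q' w) (fun e => g w fun i k => q' w i k (e i)) (fun e e' h => by
      show g w _ = g w _
      congr 1
      funext i k
      exact h i k)
  have hrun : ∀ e, (bind π₁ π₂).run e = g (fun i k => q i k (e i))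
      (fun i k => q' (fun i k => q i k (e i)) i k (e i)) := by
    intro e
    rw [bind_run, h1, h3]
  refine ⟨bind π₁ π₂, hrun, fun j => ?_, q, q', g, hrun⟩
  exact (bind_load π₁ π₂ j m' fun w => h4 w j).trans (Nat.add_le_add_right (h2 j) _)

end Pool.Agent.K9h49.MI
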