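import Pool.Agent.K9h49.MI.Jun
import Pool.Agent.K9h49.MI.Two
import Pool.Agent.K9h49.DN.Conv
import Pool.Agent.Y636.CL.Up
import Pool.Agent.TH689.LXHoeff

/-!
# A protocol with two rounds for unate DNF formulas
-/

set_option autoImplicit false

namespace Pool.Agent.K9h49.MI

open Finset Pool.Agent.W964.Wd Pool.Agent.Y636.CL Pool.Agent.Helper91K9.DL Pool.Agent.K9h49.DN

variable {n N m m' : ℕ} {E H : Type}

theorem exists_two' (q : Fin N → Fin m → E → Bool)
    (q' : (Fin N → Fin m → Bool) → Fin N → Fin m' → E → Bool)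
    (out : (Fin N → E) → H) [Nonempty H]
    (hout : ∀ e e', (∀ i k, q i k (e i) = q i k (e' i)) →
      (∀ i k, q' (fun i k => q i k (e i)) i k (e i) = q' (fun i k => q i k (e i)) i k (e' i)) →
      out e = out e') :
    ∃ π : Prot N E H, (∀ e, π.run e = out e) ∧ (∀ j, π.load j ≤ m + m') ∧
      TwoRounds m m' π := by
  classical
  obtain ⟨π, h1, h2, h3⟩ := exists_two q q' (fun w w2 =>
    if h : ∃ e : Fin N → E, (fun i k => q i k (e i)) = w ∧ (fun i k => q' w i k (e i)) = w2
    then out h.choose else Classical.arbitrary H)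
  refine ⟨π, fun e => ?_, h2, h3⟩
  rw [h1]
  have hex : ∃ e' : Fin N → E, (fun i k => q i k (e' i)) = (fun i k => q i k (e i)) ∧
      (fun i k => q' (fun i k => q i k (e i)) i k (e' i)) =
        (fun i k => q' (fun i k => q i k (e i)) i k (e i)) := ⟨e, rfl, rfl⟩
  rw [dif_pos hex]
  obtain ⟨h4, h5⟩ := hex.choose_spec
  symm
  refine hout e hex.choose (fun i k => ?_) (fun i k => ?_)
  · exact (congrFun (congrFun h4 i) k).symm
  · exact (congrFun (congrFun h5 i) k).symm

/-! ### Concentration -/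

theorem conc (P : Finset (Fin N)) (φ : (Fin n → Bool) → ℝ) (hφ : ∀ x, |φ x| ≤ 1) {τ : ℝ}
    (hτ : 0 ≤ τ) :
    ((univ.filter fun X : Fin N → Fin n → Bool =>
      P.card * τ < |∑ j ∈ P, φ (X j) - P.card * ((∑ x, φ x) / 2 ^ n)|).card : ℝ) ≤
      2 * Real.exp (-(P.card * τ ^ 2 / 8)) * (2 ^ n) ^ N := by
  classical
  set μ : ℝ := (∑ x, φ x) / 2 ^ n with hμ
  have hμ1 : |μ| ≤ 1 := by
    rw [hμ, abs_div, abs_of_pos (by positivity : (0 : ℝ) < 2 ^ n), div_le_one (by positivity)]
    calc |∑ x, φ x| ≤ ∑ x, |φ x| := abs_sum_le_sum_abs _ _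
      _ ≤ ∑ _x : Fin n → Bool, (1 : ℝ) := sum_le_sum fun x _ => hφ x
      _ = 2 ^ n := by simp
  set M : ℝ := (P.card : ℝ) with hM
  have hM0 : 0 ≤ M := Nat.cast_nonneg _
  set ψ : Fin N → (Fin n → Bool) → ℝ := fun t x => if t ∈ P then φ x - μ else 0 with hψ
  set l : ℝ := Real.sqrt M * τ / 2 with hl
  have hl0 : 0 ≤ l := by positivity
  have h1 := Pool.Agent.TH689.LX.hoeff_tail ψ (fun t => if t ∈ P then 2 else 0)
    (2 * Real.sqrt M) l hl0
    (fun t => by split_ifs <;> norm_num) (fun t x => by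
      simp only [hψ]
      split_ifs with h
      · have h2 := hφ x
        calc |φ x - μ| ≤ |φ x| + |μ| := abs_sub _ _
          _ ≤ 2 := by linarith
      · simp) (fun t => by
      simp only [hψ]
      split_ifs with h
      · rw [sum_sub_distrib, sum_const, card_univ]
        simp only [Fintype.card_fun, Fintype.card_bool, Fintype.card_fin, nsmul_eq_mul]
        rw [hμ]
        push_cast
        field_simp
        simp
      · simp) (by positivity) (by
      have h2 : ∀ t : Fin N, (if t ∈ P then (2 : ℝ) else 0) ^ 2 = if t ∈ P then 4 else 0 := by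
        intro t
        split_ifs <;> norm_num
      simp only [h2]
      rw [sum_ite_mem, univ_inter, sum_const, nsmul_eq_mul, mul_pow, Real.sq_sqrt hM0]
      linarith)
  have h2 : l * (2 * Real.sqrt M) = M * τ := by
    rw [hl]
    have := Real.mul_self_sqrt hM0
    calc Real.sqrt M * τ / 2 * (2 * Real.sqrt M) = (Real.sqrt M * Real.sqrt M) * τ := by ring
      _ = _ := by rw [this]
  have h3 : ∀ X : Fin N → Fin n → Bool, ∑ t, ψ t (X t) = ∑ j ∈ P, φ (X j) - M * μ := by
    intro X
    simp only [hψ]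
    rw [sum_ite_mem, univ_inter, sum_sub_distrib, sum_const, nsmul_eq_mul]
  rw [h2] at h1
  simp only [h3] at h1
  have h4 : l ^ 2 / 2 = M * τ ^ 2 / 8 := by
    rw [hl, div_pow, mul_pow, Real.sq_sqrt hM0]; ring
  rw [h4] at h1
  have h5 : (Fintype.card (Fin N → Fin n → Bool) : ℝ) = (2 ^ n) ^ N := by
    simp
  rw [h5] at h1
  exact h1

/-- The correlation as an average. -/
theorem cor_avg (f : Hy n) (v : Fin n) : cor (tr f) v true =
    (∑ x : Fin n → Bool, if f x = true then (if x v = true then (1 : ℝ) else -1) else 0) /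
      2 ^ n := by
  classical
  unfold cor
  rw [PP_sum, PP_sum, ← sub_div, ← sum_sub_distrib]
  congr 1
  refine sum_congr rfl fun x _ => ?_
  unfold tr
  cases h1 : f x <;> cases h2 : x v <;> simp

theorem err_avg (f h : Hy n) : err f h =
    (∑ x : Fin n → Bool, if h x ≠ f x then (1 : ℝ) else 0) / 2 ^ n := by
  classical
  unfold err
  rw [card_filter]
  push_cast
  rfl

/-! ### The protocol -/

/-- The parties which look at the variable `v`. -/
def cls (N b : ℕ) (v : ℕ) : Finset (Fin N) :=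
  univ.filter fun j => j.1 % (n / b + 1) = v / b

/-- The estimate of the correlation with the variable `v`, not normalised. -/
noncomputable def est (b : ℕ) (e : Fin N → Ex n) (v : Fin n) : ℝ :=
  ∑ j ∈ cls (n := n) N b v.1, if (e j).2 = true then (if (e j).1 v = true then (1 : ℝ) else -1) else 0

/-- The relevant variables. -/
noncomputable def rel (b : ℕ) (θ : ℝ) (e : Fin N → Ex n) : Finset (Fin n) := by
  classical
  exact univ.filter fun v => 3 / 8 * θ * (cls (n := n) N b v.1).card ≤ |est b e v|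

/-- The questions of the first round. -/
def q1 (b : ℕ) (j : Fin N) (k : Fin (b + 1)) (e : Ex n) : Bool :=
  if k.1 < b then
    (if h : (j.1 % (n / b + 1)) * b + k.1 < n then e.1 ⟨(j.1 % (n / b + 1)) * b + k.1, h⟩
      else false)
  else e.2

theorem q1_label (b : ℕ) (j : Fin N) (e : Ex n) : q1 b j (Fin.last b) e = e.2 := by
  simp [q1]

theorem q1_var {b : ℕ} (hb : 1 ≤ b) (j : Fin N) (e : Ex n) (v : Fin n)
    (h : j ∈ cls (n := n) N b v.1) :
    q1 b j ⟨v.1 % b, (Nat.mod_lt _ hb).trans (Nat.lt_succ_self b)⟩ e = e.1 v := by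
  have h1 := (mem_filter.1 h).2
  have h2 : (j.1 % (n / b + 1)) * b + v.1 % b = v.1 := by
    rw [h1, mul_comm]
    exact Nat.div_add_mod v.1 b
  unfold q1
  rw [if_pos (Nat.mod_lt _ hb)]
  simp only [h2]
  rw [dif_pos v.2]

theorem rel_congr {b : ℕ} (hb : 1 ≤ b) (θ : ℝ) (e e' : Fin N → Ex n)
    (h : ∀ i k, q1 b i k (e i) = q1 b i k (e' i)) : rel b θ e = rel b θ e' := by
  have h1 : ∀ v, est b e v = est b e' v := by
    intro v
    unfold est
    refine sum_congr rfl fun j hj => ?_
    have h2 := h j (Fin.last b)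
    rw [q1_label, q1_label] at h2
    have h3 := h j ⟨v.1 % b, (Nat.mod_lt _ hb).trans (Nat.lt_succ_self b)⟩
    rw [q1_var hb j _ v hj, q1_var hb j _ v hj] at h3
    rw [h2, h3]
  unfold rel
  simp only [h1]

/-- The relevant variables, computed from the messages of the first round. -/
noncomputable def relm (b : ℕ) (θ : ℝ) (w : Fin N → Fin (b + 1) → Bool) : Finset (Fin n) := by
  classical
  exact if h : ∃ e : Fin N → Ex n, (fun i k => q1 b i k (e i)) = w then rel b θ h.choose else ∅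

theorem relm_eq {b : ℕ} (hb : 1 ≤ b) (θ : ℝ) (e : Fin N → Ex n) :
    relm b θ (fun i k => q1 b i k (e i)) = rel b θ e := by
  unfold relm
  have hex : ∃ e' : Fin N → Ex n, (fun i k => q1 b i k (e' i)) = (fun i k => q1 b i k (e i)) :=
    ⟨e, rfl⟩
  rw [dif_pos hex]
  refine rel_congr hb θ _ _ fun i k => ?_
  exact congrFun (congrFun hex.choose_spec i) k

/-- The questions of the second round. -/
noncomputable def q2 (b : ℕ) (θ : ℝ) (w : Fin N → Fin (b + 1) → Bool) (_ : Fin N) (k : Fin b)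
    (e : Ex n) : Bool := by
  classical
  exact if h : k.1 < (relm (n := n) b θ w).card then
    e.1 ((relm (n := n) b θ w).orderEmbOfFin rfl ⟨k.1, h⟩) else false

/-- The examples as they are seen after the second round. -/
noncomputable def seen (J : Finset (Fin n)) (b : ℕ) (e : Fin N → Ex n) (j : Fin N) : Ex n := by
  classical
  exact (fun v => if v ∈ J ∧ J.card ≤ b then (e j).1 v else false, (e j).2)

theorem seen_congr {b : ℕ} (hb : 1 ≤ b) (θ : ℝ) (e e' : Fin N → Ex n)
    (h : ∀ i k, q1 b i k (e i) = q1 b i k (e' i))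
    (h2 : ∀ i k, q2 b θ (fun i k => q1 b i k (e i)) i k (e i) =
      q2 b θ (fun i k => q1 b i k (e i)) i k (e' i)) :
    seen (rel b θ e) b e = seen (rel b θ e') b e' := by
  classical
  rw [← rel_congr hb θ e e' h]
  funext j
  unfold seen
  refine Prod.ext ?_ ?_
  · funext v
    show (if v ∈ rel b θ e ∧ (rel b θ e).card ≤ b then (e j).1 v else false) =
      (if v ∈ rel b θ e ∧ (rel b θ e).card ≤ b then (e' j).1 v else false)
    split_ifs with hv
    · obtain ⟨hv1, hv2⟩ := hv
      have h3 : v ∈ Set.range ((rel b θ e).orderEmbOfFin rfl) := by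
        rw [range_orderEmbOfFin]
        exact hv1
      obtain ⟨k, hk⟩ := h3
      have h4 := h2 j ⟨k.1, by omega⟩
      unfold q2 at h4
      simp only [relm_eq hb] at h4
      rw [dif_pos k.2, dif_pos k.2] at h4
      rw [← hk]
      exact h4
    · rfl
  · have h3 := h j (Fin.last b)
    rw [q1_label, q1_label] at h3
    exact h3

/-- The candidates. -/
noncomputable def cands (s l : ℕ) (J : Finset (Fin n)) : Finset (Finset (Tm n)) := by
  classical
  exact univ.filter fun D => D.card + 1 ≤ s ∧ ∀ T ∈ D, T.card ≤ l ∧ ∀ p ∈ T, p.1 ∈ J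

theorem mem_cands {s l : ℕ} {J : Finset (Fin n)} {D : Finset (Tm n)} :
    D ∈ cands s l J ↔ D.card + 1 ≤ s ∧ ∀ T ∈ D, T.card ≤ l ∧ ∀ p ∈ T, p.1 ∈ J := by
  unfold cands
  simp

/-- The number of wrong examples. -/
def emp (S : Fin N → Ex n) (D : Finset (Tm n)) : ℕ :=
  (univ.filter fun j => hyp D (S j).1 ≠ (S j).2).card

theorem exists_best {s l : ℕ} (hs : 1 ≤ s) (J : Finset (Fin n)) (S : Fin N → Ex n) :
    ∃ D ∈ cands s l J, ∀ D' ∈ cands s l J, emp S D ≤ emp S D' := by
  refine exists_min_image _ _ ⟨∅, ?_⟩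
  rw [mem_cands]
  exact ⟨by simpa using hs, by simp⟩

theorem hyp_seen {s l b : ℕ} {J : Finset (Fin n)} (hJ : J.card ≤ b) {D : Finset (Tm n)}
    (hD : D ∈ cands s l J) (e : Fin N → Ex n) (j : Fin N) :
    hyp D (seen J b e j).1 = hyp D (e j).1 := by
  rw [mem_cands] at hD
  rw [Bool.eq_iff_iff, hyp_eq, hyp_eq]
  have h1 : ∀ T ∈ D, (sat T (seen J b e j).1 ↔ sat T (e j).1) := by
    intro T hT
    unfold sat
    refine forall₂_congr fun p hp => ?_
    have h2 := (hD.2 T hT).2 p hp
    unfold seen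
    simp only
    rw [if_pos ⟨h2, hJ⟩]
  constructor
  · rintro ⟨T, hT, hs⟩; exact ⟨T, hT, (h1 T hT).1 hs⟩
  · rintro ⟨T, hT, hs⟩; exact ⟨T, hT, (h1 T hT).2 hs⟩

/-- The best candidate. -/
noncomputable def best {s : ℕ} (hs : 1 ≤ s) (l : ℕ) (J : Finset (Fin n)) (S : Fin N → Ex n) :
    Finset (Tm n) := (exists_best (l := l) hs J S).choose

/-- The protocol. -/
theorem exists_prot2 {s b : ℕ} (l : ℕ) (hs : 1 ≤ s) (hb : 1 ≤ b) (θ : ℝ) :
    ∃ π : Prot N (Ex n) (Hy n), (∀ j, π.load j ≤ b + 1 + b) ∧ TwoRounds (b + 1) b π ∧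
      ∀ e, ∃ D ∈ cands s l (rel b θ e), π.run e = hyp D ∧
        ∀ D' ∈ cands s l (rel b θ e), emp (seen (rel b θ e) b e) D ≤
          emp (seen (rel b θ e) b e) D' := by
  classical
  obtain ⟨π, h1, h2, h3⟩ := exists_two' (E := Ex n) (q1 (N := N) b) (q2 b θ)
    (fun e => hyp (best (s := s) hs l (rel b θ e) (seen (rel b θ e) b e)))
    (by
      intro e e' h h'
      show hyp (best (s := s) hs l (rel b θ e) (seen (rel b θ e) b e)) =
        hyp (best (s := s) hs l (rel b θ e') (seen (rel b θ e') b e'))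
      rw [seen_congr hb θ e e' h h', rel_congr hb θ e e' h])
  refine ⟨π, h2, h3, fun e => ⟨_, (exists_best (s := s) (l := l) hs (rel b θ e)
    (seen (rel b θ e) b e)).choose_spec.1, h1 e, (exists_best (s := s) (l := l) hs (rel b θ e)
    (seen (rel b θ e) b e)).choose_spec.2⟩⟩

/-! ### The good case -/

theorem cands_mono {s l : ℕ} {J J' : Finset (Fin n)} (h : J ⊆ J') : cands s l J ⊆ cands s l J' := by
  intro D hD
  rw [mem_cands] at hD ⊢
  exact ⟨hD.1, fun T hT => ⟨(hD.2 T hT).1, fun p hp => h ((hD.2 T hT).2 p hp)⟩⟩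

theorem good_case {s l b : ℕ} {ε : ℝ} (hs : 1 ≤ s) (hl1 : 1 ≤ l) (hε : 0 < ε)
    (hl : 64 * (s : ℝ) ^ 2 * l ≤ ε * 2 ^ l) (hsl : s * l ≤ b) {f : Hy n} (hf : IsDnf s f)
    (hu : UnateF f) {π : Prot N (Ex n) (Hy n)}
    (hπ : ∀ e, ∃ D ∈ cands s l (rel b (ε / (8 * s * l)) e), π.run e = hyp D ∧
        ∀ D' ∈ cands s l (rel b (ε / (8 * s * l)) e),
          emp (seen (rel b (ε / (8 * s * l)) e) b e) D ≤
          emp (seen (rel b (ε / (8 * s * l)) e) b e) D')
    (X : Fin N → Fin n → Bool) (hN : 0 < N)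
    (hM : ∀ v : Fin n, 0 < (cls (n := n) N b v.1).card)
    (h1 : ∀ v, |est b (fun j => (X j, f (X j))) v -
      (cls (n := n) N b v.1).card * cor (tr f) v true| ≤
      (cls (n := n) N b v.1).card * (ε / (64 * s * l)))
    (h2 : ∀ D ∈ cands s l univ, |(emp (fun j => (X j, f (X j))) D : ℝ) - N * err f (hyp D)| ≤
      N * (ε / (64 * s * l))) :
    err f (π.run fun j => (X j, f (X j))) ≤ ε := by
  classical
  have hsR : (1 : ℝ) ≤ s := by exact_mod_cast hs
  have hlR : (1 : ℝ) ≤ l := by exact_mod_cast hl1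
  have hNR : (0 : ℝ) < N := by exact_mod_cast hN
  set e : Fin N → Ex n := fun j => (X j, f (X j)) with he
  set θ : ℝ := ε / (8 * s * l) with hθ
  set τ : ℝ := ε / (64 * s * l) with hτ
  have hsl1 : (1 : ℝ) ≤ (s : ℝ) * l := by nlinarith
  have hθ0 : 0 < θ := by rw [hθ]; positivity
  have hτθ : τ = θ / 8 := by rw [hτ, hθ]; field_simp; norm_num
  have hslθ : (s : ℝ) * l * θ = ε / 8 := by rw [hθ]; field_simp
  have h2l : (0 : ℝ) < 2 ^ l := by positivity
  -- `s / 2 ^ l` is small
  set ρ : ℝ := (s : ℝ) / 2 ^ l with hρ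
  have hρ0 : 0 ≤ ρ := by positivity
  have hslρ : (s : ℝ) * l * ρ ≤ ε / 64 := by
    rw [hρ, mul_div_assoc', div_le_div_iff₀ h2l (by norm_num)]
    nlinarith
  have hρθ : ρ ≤ θ / 8 := by
    have h3 : (s : ℝ) * l * ρ ≤ (s : ℝ) * l * (θ / 8) := by
      calc (s : ℝ) * l * ρ ≤ ε / 64 := hslρ
        _ = (s : ℝ) * l * θ / 8 := by rw [hslθ]; ring
        _ = _ := by ring
    exact le_of_mul_le_mul_left h3 (by linarith)
  -- the set of relevant variables
  set J := rel b θ e with hJ
  have hJ1 : ∀ v ∈ J, θ / 4 ≤ |cor (tr f) v true| := by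
    intro v hv
    have hv' : 3 / 8 * θ * (cls (n := n) N b v.1).card ≤ |est b e v| := by
      rw [hJ] at hv
      unfold rel at hv
      exact (mem_filter.1 hv).2
    have h3 := h1 v
    have hM0 : (0 : ℝ) < (cls (n := n) N b v.1).card := by exact_mod_cast hM v
    set M : ℝ := ((cls (n := n) N b v.1).card : ℝ) with hMM
    have h4 : |est b e v| ≤ |est b e v - M * cor (tr f) v true| + |M * cor (tr f) v true| := by
      have := abs_add_le (est b e v - M * cor (tr f) v true) (M * cor (tr f) v true)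
      rwa [sub_add_cancel] at this
    rw [abs_mul, abs_of_pos hM0] at h4
    have h5 : M * (θ / 4) ≤ M * |cor (tr f) v true| := by
      rw [hτθ] at h3
      nlinarith
    exact le_of_mul_le_mul_left h5 hM0
  have hJ2 : ∀ v, v ∉ J → |cor (tr f) v true| ≤ θ / 2 := by
    intro v hv
    have hv' : |est b e v| < 3 / 8 * θ * (cls (n := n) N b v.1).card := by
      by_contra hcon
      apply hv
      rw [hJ]
      unfold rel
      exact mem_filter.2 ⟨mem_univ _, not_lt.1 hcon⟩
    have h3 := h1 v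
    have hM0 : (0 : ℝ) < (cls (n := n) N b v.1).card := by exact_mod_cast hM v
    set M : ℝ := ((cls (n := n) N b v.1).card : ℝ) with hMM
    have h4 : |M * cor (tr f) v true| ≤ |est b e v - M * cor (tr f) v true| + |est b e v| := by
      have := abs_add_le (M * cor (tr f) v true - est b e v) (est b e v)
      rwa [sub_add_cancel, abs_sub_comm] at this
    rw [abs_mul, abs_of_pos hM0] at h4
    have h5 : M * |cor (tr f) v true| ≤ M * (θ / 2) := by
      rw [hτθ] at h3
      nlinarith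
    exact le_of_mul_le_mul_left h5 hM0
  have hJb : J.card ≤ b := by
    refine (card_J (l := l) hf J fun i hi => ?_).trans hsl
    have h3 := hJ1 i hi
    have h4 := abs_cor_le (tr f) i
    rw [← hρ]
    linarith
  obtain ⟨D0, hD0, hD1, hD2⟩ := junta (l := l) hf J hθ0.le fun i hi => by
    have h3 := hJ2 i hi
    have h4 := inf_le_cor hu i
    linarith
  have hD0' : D0 ∈ cands s l J := mem_cands.2 ⟨hD0, hD1⟩
  obtain ⟨D, hD, hrun, hmin⟩ := hπ e
  rw [hrun]
  have hseen : ∀ D' ∈ cands s l J, emp (seen J b e) D' = emp e D' := by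
    intro D' hD'
    unfold emp
    congr 1
    refine filter_congr fun j _ => ?_
    rw [hyp_seen hJb hD' e j]
    rfl
  have h5 := hmin D0 hD0'
  rw [hseen D hD, hseen D0 hD0'] at h5
  have h5R : (emp e D : ℝ) ≤ emp e D0 := by exact_mod_cast h5
  have h6 := h2 D (cands_mono (subset_univ _) hD)
  have h7 := h2 D0 (cands_mono (subset_univ _) hD0')
  rw [abs_le] at h6 h7
  have h8 : (N : ℝ) * err f (hyp D) ≤ N * (err f (hyp D0) + 2 * τ) := by
    nlinarith [h6.1, h7.2]
  have h9 := le_of_mul_le_mul_left h8 hNR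
  have h10 : (s : ℝ) / 2 ^ (l + 1) = ρ / 2 := by
    rw [hρ, pow_succ]; field_simp
  rw [h10, ← hρ] at hD2
  have h11 : ρ ≤ (s : ℝ) * l * ρ := by nlinarith
  have h12 : θ ≤ (s : ℝ) * l * θ := by nlinarith
  have h13 : (s : ℝ) * l * (θ + ρ) = (s : ℝ) * l * θ + (s : ℝ) * l * ρ := by ring
  rw [h13] at hD2
  linarith

/-! ### Counting -/

theorem card_cands (s l : ℕ) (hl : 1 ≤ l) :
    (cands (n := n) s l univ).card ≤ (2 * n + 2) ^ (l * s) := by
  classical
  set K := {T : Tm n // T.card ≤ l} with hK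
  have h1 : Fintype.card K ≤ (2 * n + 1) ^ l := by
    have h2 := card_short (α := Fin n × Bool) l
    rw [Fintype.card_prod, Fintype.card_fin, Fintype.card_bool, mul_comm n 2] at h2
    refine le_trans (le_of_eq ?_) h2
    exact Fintype.card_subtype _
  have h2 : Fintype.card K + 1 ≤ (2 * n + 2) ^ l := by
    have h3 : (2 * n + 1) ^ l < (2 * n + 2) ^ l := Nat.pow_lt_pow_left (by omega) (by omega)
    omega
  have h3 : (cands (n := n) s l univ).card ≤
      (univ.filter fun A : Finset K => A.card ≤ s).card := by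
    refine card_le_card_of_injOn (fun D => D.subtype fun T => T.card ≤ l) ?_ ?_
    · intro D hD
      have hD := mem_cands.1 (mem_coe.1 hD)
      refine mem_coe.2 (mem_filter.2 ⟨mem_univ _, ?_⟩)
      rw [card_subtype]
      exact (card_filter_le _ _).trans (by omega)
    · intro D hD D' hD' h
      have hD := mem_cands.1 (mem_coe.1 hD)
      have hD' := mem_cands.1 (mem_coe.1 hD')
      have h4 := congrArg (Finset.map (Function.Embedding.subtype fun T : Tm n => T.card ≤ l)) h
      simp only [subtype_map] at h4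
      rwa [filter_true_of_mem fun T hT => (hD.2 T hT).1,
        filter_true_of_mem fun T hT => (hD'.2 T hT).1] at h4
  refine h3.trans ((card_short s).trans ?_)
  rw [pow_mul]
  exact Nat.pow_le_pow_left h2 s

theorem card_cls (n N b : ℕ) (v : Fin n) : N / (n / b + 1) ≤ (cls (n := n) N b v.1).card := by
  classical
  set Q := n / b + 1 with hQ
  have hv : v.1 / b < Q := by
    have : v.1 / b ≤ n / b := Nat.div_le_div_right v.2.le
    omega
  have h1 : (univ : Finset (Fin (N / Q))).card = N / Q := by simp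
  rw [← h1]
  have h2 : ∀ i : Fin (N / Q), i.1 * Q + v.1 / b < N := by
    intro i
    have h3 : (i.1 + 1) * Q ≤ N / Q * Q := Nat.mul_le_mul_right _ i.2
    have h4 : N / Q * Q ≤ N := Nat.div_mul_le_self N Q
    have h5 : (i.1 + 1) * Q = i.1 * Q + Q := by ring
    omega
  refine card_le_card_of_injOn (fun i => ⟨i.1 * Q + v.1 / b, h2 i⟩) ?_ ?_
  · intro i _
    refine mem_coe.2 (mem_filter.2 ⟨mem_univ _, ?_⟩)
    show (i.1 * Q + v.1 / b) % Q = v.1 / b
    rw [mul_comm, Nat.mul_add_mod]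
    exact Nat.mod_eq_of_lt hv
  · intro i _ i' _ h
    have h3 : i.1 * Q + v.1 / b = i'.1 * Q + v.1 / b := congrArg Fin.val h
    have h4 : i.1 * Q = i'.1 * Q := by omega
    exact Fin.ext (Nat.eq_of_mul_eq_mul_right (Nat.succ_pos _) h4)

/-- **The upper bound.** -/
theorem up_main {s l b : ℕ} {ε δ : ℝ} (hs : 1 ≤ s) (hl1 : 1 ≤ l) (hε : 0 < ε)
    (hδ : 0 < δ) (hl : 64 * (s : ℝ) ^ 2 * l ≤ ε * 2 ^ l) (hsl : s * l ≤ b)
    (hN : ((n / b + 1 : ℕ) : ℝ) * (2 ^ 15 * s ^ 2 * l ^ 2 / ε ^ 2 *
      (l * s * Real.log (2 * n + 2) + Real.log (4 / δ)) + 1) ≤ N) (hδ1 : δ ≤ 1) :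
    ∃ π : Prot N (Ex n) (Hy n), (∀ j, π.load j ≤ 2 * b + 1) ∧ TwoRounds (b + 1) b π ∧
      ∀ f : Hy n, IsDnf s f → UnateF f → 1 - δ ≤ Pool.Agent.Y636.CL.learnProb π.run f ε := by
  classical
  have hb : 1 ≤ b := le_trans (Nat.mul_pos hs hl1) hsl
  obtain ⟨π, hπ1, hπ2, hπ3⟩ := exists_prot2 (n := n) (N := N) l hs hb (ε / (8 * s * l))
  refine ⟨π, fun j => (hπ1 j).trans (by omega), hπ2, fun f hf hu => ?_⟩
  have hsR : (1 : ℝ) ≤ s := by exact_mod_cast hs
  have hlR : (1 : ℝ) ≤ l := by exact_mod_cast hl1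
  set τ : ℝ := ε / (64 * s * l) with hτ
  have hτ0 : 0 < τ := by rw [hτ]; positivity
  set L : ℝ := l * s * Real.log (2 * n + 2) + Real.log (4 / δ) with hL
  have hlog1 : 0 ≤ Real.log (2 * n + 2) := Real.log_nonneg (by
    have : (0 : ℝ) ≤ n := Nat.cast_nonneg n
    linarith)
  have hlog2 : 0 ≤ Real.log (4 / δ) := Real.log_nonneg (by
    rw [le_div_iff₀ hδ]; linarith)
  have hL0 : 0 ≤ L := by positivity
  set M0 : ℝ := 2 ^ 15 * s ^ 2 * l ^ 2 / ε ^ 2 * L with hM0
  have hM00 : 0 ≤ M0 := by positivity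
  have hM0τ : M0 * τ ^ 2 / 8 = L := by
    rw [hM0, hτ]; field_simp; ring
  have hQR : (1 : ℝ) ≤ ((n / b + 1 : ℕ) : ℝ) := by
    exact_mod_cast Nat.succ_le_succ (Nat.zero_le (n / b))
  have hNM0 : M0 + 1 ≤ N := by nlinarith
  have hNpos : 0 < N := by
    have : (0 : ℝ) < N := by linarith
    exact_mod_cast this
  -- the size of the classes
  have hM : ∀ v : Fin n, M0 ≤ ((cls (n := n) N b v.1).card : ℝ) := by
    intro v
    have h1 := card_cls n N b v
    have h2 : (N : ℝ) < ((n / b + 1 : ℕ) : ℝ) * (((N / (n / b + 1) : ℕ) : ℝ) + 1) := by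
      have h3 := Nat.lt_mul_div_succ N (Nat.succ_pos (n / b))
      exact_mod_cast h3
    have h3 : M0 + 1 < ((N / (n / b + 1) : ℕ) : ℝ) + 1 := by
      have h4 := hN.trans_lt h2
      exact lt_of_mul_lt_mul_left h4 (by linarith)
    have h4 : ((N / (n / b + 1) : ℕ) : ℝ) ≤ ((cls (n := n) N b v.1).card : ℝ) := by
      exact_mod_cast h1
    linarith
  have hMpos : ∀ v : Fin n, 0 < (cls (n := n) N b v.1).card := by
    intro v
    refine lt_of_lt_of_le ?_ (card_cls n N b v)
    have h2 : (N : ℝ) < ((n / b + 1 : ℕ) : ℝ) * (((N / (n / b + 1) : ℕ) : ℝ) + 1) := by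
      have h3 := Nat.lt_mul_div_succ N (Nat.succ_pos (n / b))
      exact_mod_cast h3
    have h3 : M0 + 1 < ((N / (n / b + 1) : ℕ) : ℝ) + 1 := by
      have h4 := hN.trans_lt h2
      exact lt_of_mul_lt_mul_left h4 (by linarith)
    have h4 : (0 : ℝ) < ((N / (n / b + 1) : ℕ) : ℝ) := by linarith
    exact_mod_cast h4
  -- one bad event
  set A : ℝ := 2 * Real.exp (-L) * (2 ^ n) ^ N with hA
  have hA0 : 0 ≤ A := by positivity
  have hstep : ∀ M : ℝ, M0 ≤ M → 2 * Real.exp (-(M * τ ^ 2 / 8)) * (2 ^ n) ^ N ≤ A := by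
    intro M hMM
    rw [hA]
    refine mul_le_mul_of_nonneg_right ?_ (by positivity)
    refine mul_le_mul_of_nonneg_left ?_ (by norm_num)
    refine Real.exp_le_exp.2 ?_
    rw [← hM0τ]
    have : M0 * τ ^ 2 ≤ M * τ ^ 2 := mul_le_mul_of_nonneg_right hMM (sq_nonneg _)
    linarith
  set B1 : Fin n → Finset (Fin N → Fin n → Bool) := fun v => univ.filter fun X =>
    (cls (n := n) N b v.1).card * τ < |est b (fun j => (X j, f (X j))) v -
      (cls (n := n) N b v.1).card * cor (tr f) v true| with hB1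
  set B2 : Finset (Tm n) → Finset (Fin N → Fin n → Bool) := fun D => univ.filter fun X =>
    N * τ < |(emp (fun j => (X j, f (X j))) D : ℝ) - N * err f (hyp D)| with hB2
  have hB1c : ∀ v ∈ (univ : Finset (Fin n)), ((B1 v).card : ℝ) ≤ A := by
    intro v _
    have h1 := conc (N := N) (cls (n := n) N b v.1)
      (fun x : Fin n → Bool => if f x = true then (if x v = true then (1 : ℝ) else -1) else 0)
      (by intro x; split_ifs <;> norm_num) hτ0.le
    rw [← cor_avg f v] at h1
    exact h1.trans (hstep _ (hM v))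
  have hB2c : ∀ D ∈ cands (n := n) s l univ, ((B2 D).card : ℝ) ≤ A := by
    intro D _
    have h1 := conc (N := N) univ
      (fun x : Fin n → Bool => if hyp D x ≠ f x then (1 : ℝ) else 0)
      (by intro x; split_ifs <;> norm_num) hτ0.le
    rw [← err_avg f (hyp D), card_univ, Fintype.card_fin] at h1
    have h2 : ∀ X : Fin N → Fin n → Bool, (∑ j, if hyp D (X j) ≠ f (X j) then (1 : ℝ) else 0) =
        (emp (fun j => (X j, f (X j))) D : ℝ) := by
      intro X
      unfold emp
      rw [card_filter]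
      push_cast
      rfl
    simp only [h2] at h1
    exact h1.trans (hstep _ (by linarith))
  -- the union bound
  have hbad : ((univ.filter fun X : Fin N → Fin n → Bool =>
      ¬ err f (π.run fun j => (X j, f (X j))) ≤ ε).card : ℝ) ≤ δ * (2 ^ n) ^ N := by
    have h1 : (univ.filter fun X : Fin N → Fin n → Bool =>
        ¬ err f (π.run fun j => (X j, f (X j))) ≤ ε) ⊆
        (univ : Finset (Fin n)).biUnion B1 ∪ (cands (n := n) s l univ).biUnion B2 := by
      intro X hX
      have hX := (mem_filter.1 hX).2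
      by_contra hcon
      rw [mem_union, not_or] at hcon
      obtain ⟨c1, c2⟩ := hcon
      refine hX (good_case hs hl1 hε hl hsl hf hu hπ3 X hNpos hMpos ?_ ?_)
      · intro v
        by_contra h
        exact c1 (mem_biUnion.2 ⟨v, mem_univ _, mem_filter.2 ⟨mem_univ _, not_le.1 h⟩⟩)
      · intro D hD
        by_contra h
        exact c2 (mem_biUnion.2 ⟨D, hD, mem_filter.2 ⟨mem_univ _, not_le.1 h⟩⟩)
    have h2 : ((univ.filter fun X : Fin N → Fin n → Bool =>
        ¬ err f (π.run fun j => (X j, f (X j))) ≤ ε).card : ℝ) ≤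
        ∑ v, ((B1 v).card : ℝ) + ∑ D ∈ cands (n := n) s l univ, ((B2 D).card : ℝ) := by
      exact_mod_cast (card_le_card h1).trans ((card_union_le _ _).trans
        (Nat.add_le_add card_biUnion_le card_biUnion_le))
    have h3 := sum_le_card_nsmul (univ : Finset (Fin n)) _ _ hB1c
    have h4 := sum_le_card_nsmul (cands (n := n) s l univ) _ _ hB2c
    rw [nsmul_eq_mul] at h3 h4
    have h5 : ((univ : Finset (Fin n)).card : ℝ) ≤ (2 * n + 2) ^ (l * s) := by
      rw [card_univ, Fintype.card_fin]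
      have h6 : (n : ℝ) ≤ 2 * n + 2 := by
        have : (0 : ℝ) ≤ n := Nat.cast_nonneg n
        linarith
      refine h6.trans (le_self_pow₀ ?_ (Nat.mul_pos hl1 hs).ne')
      have : (0 : ℝ) ≤ n := Nat.cast_nonneg n
      linarith
    have h6 : ((cands (n := n) s l univ).card : ℝ) ≤ (2 * n + 2) ^ (l * s) := by
      exact_mod_cast card_cands (n := n) s l hl1
    have h7 : (2 * n + 2 : ℝ) ^ (l * s) * Real.exp (-L) = δ / 4 := by
      have hn2 : (0 : ℝ) < 2 * n + 2 := by positivity
      have h8 : (2 * n + 2 : ℝ) ^ (l * s) = Real.exp (l * s * Real.log (2 * n + 2)) := by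
        have := Real.exp_nat_mul (Real.log (2 * n + 2)) (l * s)
        rw [Real.exp_log hn2] at this
        rw [← this]
        push_cast
        rfl
      rw [h8, ← Real.exp_add]
      have h9 : (l : ℝ) * s * Real.log (2 * n + 2) + -L = - Real.log (4 / δ) := by
        rw [hL]; ring
      rw [h9, Real.exp_neg, Real.exp_log (by positivity)]
      field_simp
    calc _ ≤ _ := h2
      _ ≤ (2 * n + 2) ^ (l * s) * A + (2 * n + 2) ^ (l * s) * A := by
        refine add_le_add (h3.trans (mul_le_mul_of_nonneg_right h5 hA0))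
          (h4.trans (mul_le_mul_of_nonneg_right h6 hA0))
      _ = 4 * ((2 * n + 2 : ℝ) ^ (l * s) * Real.exp (-L)) * (2 ^ n) ^ N := by
        rw [hA]; ring
      _ = _ := by rw [h7]; ring
  have htot := card_filter_add_card_filter_not (s := (univ : Finset (Fin N → Fin n → Bool)))
    (fun X => err f (π.run fun j => (X j, f (X j))) ≤ ε)
  have htotR : ((univ.filter fun X : Fin N → Fin n → Bool =>
      err f (π.run fun j => (X j, f (X j))) ≤ ε).card : ℝ) +
      ((univ.filter fun X : Fin N → Fin n → Bool =>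
      ¬ err f (π.run fun j => (X j, f (X j))) ≤ ε).card : ℝ) = (2 ^ n) ^ N := by
    rw [← Nat.cast_add, htot, card_univ]
    simp
  unfold Pool.Agent.Y636.CL.learnProb
  rw [le_div_iff₀ (by positivity)]
  linarith

end Pool.Agent.K9h49.MI
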